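import Pool.Agent.Work.MP_129c4a_an.Defs
import Mathlib.RingTheory.Jacobson.Ideal
import Mathlib.Topology.Ultrafilter
import Mathlib.Analysis.Normed.Module.DoubleDual
import Mathlib.Order.Filter.Ultrafilter.Basic
import Mathlib.Analysis.Complex.Basic
import Mathlib.Topology.MetricSpace.ProperSpace

/-!
A bounded sequence with pairwise zero products that is not weakly null gives a nonzero element of
the radical of the bidual.
-/

namespace Pool.Agent.Work.MP_129c4a_an

open Filter Topology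

universe u v

/-- limits of bounded sequences of functionals along an ultrafilter -/
theorem exists_ultralim {E : Type v} [NormedAddCommGroup E] [NormedSpace ℂ E]
    (𝒰 : Ultrafilter ℕ) (F : ℕ → StrongDual ℂ E) (C : ℝ) (hF : ∀ n, ‖F n‖ ≤ C) :
    ∃ T : StrongDual ℂ E, ∀ x, Tendsto (fun n => F n x) (𝒰 : Filter ℕ) (𝓝 (T x)) := by
  have hC : 0 ≤ C := (norm_nonneg _).trans (hF 0)
  have hb : ∀ n x, ‖F n x‖ ≤ C * ‖x‖ := fun n x =>
    ((F n).le_opNorm x).trans (mul_le_mul_of_nonneg_right (hF n) (norm_nonneg x))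
  have hex : ∀ x, ∃ c : ℂ, ‖c‖ ≤ C * ‖x‖ ∧ Tendsto (fun n => F n x) (𝒰 : Filter ℕ) (𝓝 c) := by
    intro x
    have hK : IsCompact (Metric.closedBall (0 : ℂ) (C * ‖x‖)) := isCompact_closedBall _ _
    obtain ⟨c, hc, hlim⟩ := hK.ultrafilter_le_nhds (𝒰.map fun n => F n x) (by
      rw [le_principal_iff, Ultrafilter.coe_map, mem_map]
      exact univ_mem' fun n => by simpa using hb n x)
    exact ⟨c, by simpa using hc, hlim⟩
  choose t ht1 ht2 using hex
  let L : E →ₗ[ℂ] ℂ :=
    { toFun := t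
      map_add' := fun x y => tendsto_nhds_unique (ht2 (x + y))
        (by simpa only [map_add] using (ht2 x).add (ht2 y))
      map_smul' := fun c x => tendsto_nhds_unique (ht2 (c • x))
        (by simpa only [map_smul, RingHom.id_apply] using (ht2 x).const_smul c) }
  exact ⟨L.mkContinuous C ht1, ht2⟩

theorem mem_rad_of_sq {B : Type v} [NonUnitalRing B] [Module ℂ B] [IsScalarTower ℂ B B]
    [SMulCommClass ℂ B B] (x : B) (h1 : x * x = 0) (h2 : ∀ y : B, x * (y * x) = 0) :
    x ∈ rad B := by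
  unfold rad
  rw [Set.mem_ofPred_eq, ← Ideal.jacobson_bot, Ideal.mem_jacobson_iff]
  intro y
  refine ⟨1 - y * x, ?_⟩
  have key : (x : Unitization ℂ B) * y * x = 0 := by
    induction y using Unitization.ind with
    | inl_add_inr c b =>
      rw [mul_add, add_mul, Unitization.inr_mul_inl, ← Unitization.inr_mul, ← Unitization.inr_mul,
        ← Unitization.inr_mul, smul_mul_assoc, h1, smul_zero, mul_assoc, h2]
      simp
  have : (1 - y * x) * y * x + (1 - y * x) - 1 = -(y * ((x : Unitization ℂ B) * y * x)) := by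
    noncomm_ring
  rw [this, key]
  simp

variable {A : Type v} [NonUnitalNormedRing A] [NormedSpace ℂ A] [IsScalarTower ℂ A A]
  [SMulCommClass ℂ A A]

theorem exists_rad_of_seq (hcomm : ∀ a b : A, a * b = b * a) (d : ℕ → A) (C : ℝ)
    (hd : ∀ n, ‖d n‖ ≤ C) (hz : ∀ m n, m < n → d m * d n = 0) (T : StrongDual ℂ A)
    (hT : ∀ n, 1 / 2 ≤ (T (d n)).re) :
    ∃ Ψ : ArensBidual A, Ψ ≠ 0 ∧ Ψ ∈ rad (ArensBidual A) := by
  let 𝒰 : Ultrafilter ℕ := Ultrafilter.of atTop
  have h𝒰 : (𝒰 : Filter ℕ) ≤ atTop := Ultrafilter.of_le _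
  obtain ⟨Ψ, hΨ⟩ := exists_ultralim 𝒰 (fun n => NormedSpace.inclusionInDoubleDual ℂ A (d n)) C
    (fun n => (NormedSpace.double_dual_bound ℂ A (d n)).trans (hd n))
  have hΨ' : ∀ f : StrongDual ℂ A, Tendsto (fun n => f (d n)) (𝒰 : Filter ℕ) (𝓝 (Ψ f)) := hΨ
  have hzero : ∀ f : StrongDual ℂ A, (∀ᶠ n in atTop, f (d n) = 0) → Ψ f = 0 := by
    intro f hf
    refine tendsto_nhds_unique (hΨ' f) ?_
    exact tendsto_const_nhds.congr' (h𝒰 (hf.mono fun n hn => hn.symm))
  have hact : ∀ (f : StrongDual ℂ A) (n : ℕ), bidualAct Ψ (dualAct f (d n)) = 0 := by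
    intro f n
    ext a
    rw [bidualAct_apply]
    refine hzero _ ?_
    filter_upwards [eventually_gt_atTop n] with m hm
    rw [dualAct_apply, dualAct_apply, hcomm a, ← mul_assoc, hz n m hm, zero_mul, map_zero]
  refine ⟨Ψ, ?_, mem_rad_of_sq _ ?_ ?_⟩
  · intro h0
    have h1 : Ψ T = 0 := by
      have : (Ψ : StrongDual ℂ (StrongDual ℂ A)) = 0 := h0
      rw [this]
      rfl
    have h2 : Tendsto (fun n => (T (d n)).re) (𝒰 : Filter ℕ) (𝓝 (Ψ T).re) :=
      (Complex.continuous_re.tendsto _).comp (hΨ' T)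
    have h3 := ge_of_tendsto' h2 hT
    rw [h1] at h3
    norm_num at h3
  · refine ContinuousLinearMap.ext fun f => ?_
    change Ψ (bidualAct Ψ f) = 0
    refine hzero _ (Eventually.of_forall fun n => ?_)
    rw [bidualAct_apply]
    refine hzero _ ?_
    filter_upwards [eventually_gt_atTop n] with m hm
    rw [dualAct_apply, hz n m hm, map_zero]
  · intro Φ
    refine ContinuousLinearMap.ext fun f => ?_
    change Ψ (bidualAct (arens Φ Ψ) f) = 0
    refine hzero _ (Eventually.of_forall fun n => ?_)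
    rw [bidualAct_apply, arens_apply, hact, map_zero]

end Pool.Agent.Work.MP_129c4a_an
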