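import Pool.Agent.Work.MP_129c4a_an.Perron
import Mathlib.LinearAlgebra.Finsupp.Span

/-!
The gliding hump sequence for an infinite discrete group.
-/

namespace Pool.Agent.Work.MP_129c4a_an

open Filter Topology
open scoped InnerProductSpace ComplexOrder

universe u v

variable {G : Type u} [Group G] {H : Type v} [NormedAddCommGroup H] [InnerProductSpace ℂ H]
  [CompleteSpace H] {U : G →* (H →L[ℂ] H)}

omit [CompleteSpace H] in
theorem adj_norm_le {S S' : H →L[ℂ] H} (h : ∀ x y, ⟪S x, y⟫_ℂ = ⟪x, S' y⟫_ℂ)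
    (hS : ∀ x, ‖S x‖ ≤ ‖x‖) (y : H) : ‖S' y‖ ≤ ‖y‖ := by
  have h1 : ‖S' y‖ ^ 2 = ‖⟪S (S' y), y⟫_ℂ‖ := by
    rw [h, inner_self_eq_norm_sq_to_K]
    simp
  have h2 : ‖⟪S (S' y), y⟫_ℂ‖ ≤ ‖S' y‖ * ‖y‖ :=
    (norm_inner_le_norm _ _).trans (mul_le_mul_of_nonneg_right (hS _) (norm_nonneg _))
  by_contra hcon
  push Not at hcon
  nlinarith [norm_nonneg y]

theorem exists_effect [Infinite G] (hU : IsUnitaryRep U) (b : HilbertBasis G ℂ H)
    (hb : ∀ s x, U s (b x) = b (s * x)) (ε : ℝ) (hε : 0 < ε) :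
    ∃ B ∈ spanRep U, IsEffect B ∧ ‖B (b 1)‖ ≤ ε ∧
      ∃ ξ ∈ Submodule.span ℂ (Set.range b), ‖ξ‖ = 1 ∧ ‖ξ - B ξ‖ ≤ 1 / 12 := by
  classical
  obtain ⟨N, hN⟩ := exists_nat_gt (4 / ε ^ 2)
  obtain ⟨F0, hF0⟩ := Infinite.exists_subset_card_eq G N
  set F := insert 1 F0 with hFdef
  have h1F : (1 : G) ∈ F := Finset.mem_insert_self _ _
  have hFcard : (N : ℝ) ≤ F.card := by
    rw [← hF0]
    exact_mod_cast Finset.card_le_card (Finset.subset_insert _ _)
  set h : H →L[ℂ] H := ∑ s ∈ F, U s with hh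
  have hne : h ≠ 0 := by
    intro h0
    have h1 : ⟪b 1, h (b 1)⟫_ℂ = 1 := by
      rw [hh, sum_apply, inner_sum, Finset.sum_eq_single_of_mem 1 h1F]
      · rw [hb, orthonormal_iff_ite.1 b.orthonormal]
        simp
      · intro s _ hs
        rw [hb, orthonormal_iff_ite.1 b.orthonormal, if_neg]
        simpa using hs.symm
    rw [h0] at h1
    simp at h1
  have hρ : 0 < ‖h‖ := norm_pos_iff.2 hne
  set S : H →L[ℂ] H := ((‖h‖⁻¹ : ℝ) : ℂ) • h with hS
  set S' : H →L[ℂ] H := ((‖h‖⁻¹ : ℝ) : ℂ) • ∑ s ∈ F, U s⁻¹ with hS'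
  have hSS : ∀ x y, ⟪S x, y⟫_ℂ = ⟪x, S' y⟫_ℂ := by
    intro x y
    rw [hS, hS', hh]
    simp only [smul_apply, sum_apply, inner_smul_left, inner_smul_right, sum_inner, inner_sum,
      Complex.conj_ofReal, hU.inner_left]
  have hSn : ‖S‖ = 1 := by
    rw [hS, norm_smul, Complex.norm_real, norm_inv, norm_norm, inv_mul_cancel₀ hρ.ne']
  have hS1 : ∀ x, ‖S x‖ ≤ ‖x‖ := fun x => by simpa [hSn] using S.le_opNorm x
  have hS'1 : ∀ x, ‖S' x‖ ≤ ‖x‖ := adj_norm_le hSS hS1
  set a := S' * S with hadef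
  have haE : IsEffect a := isEffect_of_pair hSS hS'1
  have ha : a = ((‖h‖⁻¹ * ‖h‖⁻¹ : ℝ) : ℂ) • ∑ p ∈ F ×ˢ F, U (p.1⁻¹ * p.2) := by
    rw [hadef, hS, hS', hh, smul_mul_smul_comm, Finset.sum_mul_sum, Finset.sum_product,
      Complex.ofReal_mul]
    simp only [map_mul]
  have hamem : a ∈ spanRep U := by
    rw [ha]
    exact Submodule.smul_mem _ _ (Submodule.sum_mem _ fun _ _ => rep_mem U _)
  have ha1 : ‖a‖ ≤ 1 := ContinuousLinearMap.opNorm_le_bound _ zero_le_one fun x => by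
    simpa using haE.norm_le x
  -- Birkhoff averages
  let T : ℕ → (H →L[ℂ] H) := fun n => (n : ℂ)⁻¹ • ∑ k ∈ Finset.range n, a ^ k
  have hT : ∀ n x, T n x = (n : ℂ)⁻¹ • ∑ k ∈ Finset.range n, (a ^ k) x := fun n x => by
    simp [T]
  have hTb : ∀ n x, T n x = birkhoffAverage ℂ a id n x := fun n x => by
    have hit : ∀ k y, (a ^ k) y = (⇑a)^[k] y := by
      intro k
      induction k with
      | zero => intro y; rfl
      | succ k ih => intro y; rw [pow_succ, mul_apply_eq_comp, ih]; rfl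
    rw [hT, birkhoffAverage, birkhoffSum]
    simp only [hit, id]
  have hTmem : ∀ n, T n ∈ spanRep U := fun n =>
    Submodule.smul_mem _ _ (Submodule.sum_mem _ fun k _ => pow_mem_spanRep U hamem k)
  have hpow_sym : ∀ k x y, ⟪(a ^ k) x, y⟫_ℂ = ⟪x, (a ^ k) y⟫_ℂ := by
    intro k
    induction k with
    | zero => intro x y; rfl
    | succ k ih =>
      intro x y
      conv_lhs => rw [pow_succ, mul_apply_eq_comp, ih, haE.1]
      rw [pow_succ']
      rfl
  have hTsym : ∀ n x y, ⟪T n x, y⟫_ℂ = ⟪x, T n y⟫_ℂ := by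
    intro n x y
    rw [hT, hT, inner_smul_left, inner_smul_right, sum_inner, inner_sum]
    simp only [map_inv₀, map_natCast, hpow_sym]
  have havg : ∀ (n : ℕ) (v : ℕ → H) (r : ℝ), 0 ≤ r → (∀ k < n, ‖v k‖ ≤ r) →
      ‖(n : ℂ)⁻¹ • ∑ k ∈ Finset.range n, v k‖ ≤ r := by
    intro n v r hr hv
    rcases Nat.eq_zero_or_pos n with rfl | hn
    · simpa using hr
    have hc : (0 : ℝ) < n := by exact_mod_cast hn
    rw [norm_smul, norm_inv, Complex.norm_natCast, inv_mul_le_iff₀ hc]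
    refine (norm_sum_le _ _).trans ?_
    simpa using Finset.sum_le_card_nsmul (Finset.range n) _ r
      fun k hk => hv k (Finset.mem_range.1 hk)
  have hpow_le : ∀ k x, ‖(a ^ k) x‖ ≤ ‖x‖ := by
    intro k
    induction k with
    | zero => intro x; exact le_rfl
    | succ k ih =>
      intro x
      rw [pow_succ', mul_apply_eq_comp]
      exact (haE.norm_le _).trans (ih x)
  have hT1 : ∀ n x, ‖T n x‖ ≤ ‖x‖ := fun n x => by
    rw [hT]
    exact havg n _ _ (norm_nonneg _) fun k _ => hpow_le k x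
  have hlim := a.tendsto_birkhoffAverage_orthogonalProjection ha1 (b 1)
  set ξ0 : H := ((a.eqLocus (1 : H →L[ℂ] H)).orthogonalProjectionOnto (b 1) : H) with hξ0
  have hlim' : Tendsto (fun n => T n (b 1)) atTop (𝓝 ξ0) := by
    simpa only [hTb] using hlim
  have hfix : a ξ0 = ξ0 := ((a.eqLocus (1 : H →L[ℂ] H)).orthogonalProjectionOnto (b 1)).2
  have hpos : ∀ x, 0 ≤ ⟪b x, ξ0⟫_ℂ := by
    clear * - G H b a h F U ha hU hb hne T ξ0 hlim' hT
    have hk : ∀ k x, 0 ≤ ⟪b x, (a ^ k) (b 1)⟫_ℂ := by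
      intro k
      induction k with
      | zero =>
        intro x
        change 0 ≤ ⟪b x, b 1⟫_ℂ
        rw [orthonormal_iff_ite.1 b.orthonormal]
        split_ifs <;> simp
      | succ k ih =>
        intro x
        rw [pow_succ', mul_apply_eq_comp]
        conv_rhs => enter [3, 1]; rw [ha]
        simp only [smul_apply, sum_apply, inner_smul_right, inner_sum, coord_rep hU b hb]
        exact mul_nonneg (Complex.zero_le_real.2 (by positivity))
          (Finset.sum_nonneg fun p _ => ih _)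
    intro x
    have h1 : Tendsto (fun n => ⟪b x, T n (b 1)⟫_ℂ) atTop (𝓝 ⟪b x, ξ0⟫_ℂ) :=
      tendsto_const_nhds.inner hlim'
    refine ge_of_tendsto' h1 fun n => ?_
    rw [hT, inner_smul_right, inner_sum]
    refine mul_nonneg ?_ (Finset.sum_nonneg fun k _ => hk k x)
    rw [← Complex.ofReal_natCast, ← Complex.ofReal_inv]
    exact Complex.zero_le_real.2 (by positivity)
  have hproj : ∀ η, a η = η → ⟪b 1, η⟫_ℂ = ⟪ξ0, η⟫_ℂ := by
    intro η hη
    have h1 := (a.eqLocus (1 : H →L[ℂ] H)).sub_starProjection_mem_orthogonal (b 1)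
    have h2 := (Submodule.mem_orthogonal' _ _).1 h1 η hη
    rw [inner_sub_left, sub_eq_zero] at h2
    exact h2
  have hsmall := fixed_small hU b hb (F ×ˢ F) (fun p => p.1⁻¹ * p.2) (‖h‖⁻¹ * ‖h‖⁻¹)
    (by positivity) a ha haE.norm_le F
    (fun t ht => ⟨(t, 1), Finset.mem_product.2 ⟨ht, h1F⟩, by simp⟩) ξ0 hfix hpos hproj
  have hξε : ‖ξ0‖ < ε := by
    clear * - N ε hε hN H ξ0 G F hFcard hsmall
    have h1 : 4 < N * ε ^ 2 := by rwa [div_lt_iff₀ (by positivity)] at hN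
    by_contra hcon
    push Not at hcon
    have h2 : ε ^ 2 ≤ ‖ξ0‖ ^ 2 := pow_le_pow_left₀ hε.le hcon 2
    have h3 : (N : ℝ) * ε ^ 2 ≤ F.card * ‖ξ0‖ ^ 2 :=
      mul_le_mul hFcard h2 (by positivity) (by positivity)
    linarith
  obtain ⟨n, hn1, hn2⟩ :=
    ((hlim'.norm.eventually (gt_mem_nhds hξε)).and (eventually_gt_atTop 0)).exists
  have hnpos : (0 : ℝ) < n := by exact_mod_cast hn2
  -- an almost fixed vector
  set r : ℝ := 1 / (24 * n) with hr
  have hr0 : 0 < r := by positivity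
  obtain ⟨ζ, hζ1, hζ2, hζ3⟩ : ∃ ζ ∈ Submodule.span ℂ (Set.range b), ‖ζ‖ = 1 ∧
      1 - r ^ 2 / 4 < ‖S ζ‖ := by
    clear * - H r S hSn n hr0 G b
    have hopen : IsOpen {x : H | (1 - r ^ 2 / 4) * ‖x‖ < ‖S x‖ ∧ 0 < ‖x‖} :=
      IsOpen.inter (s := {x : H | (1 - r ^ 2 / 4) * ‖x‖ < ‖S x‖}) (t := {x : H | 0 < ‖x‖})
        (isOpen_lt (continuous_const.mul continuous_norm) S.continuous.norm)
        (isOpen_lt continuous_const continuous_norm)
    have hnon : {x : H | (1 - r ^ 2 / 4) * ‖x‖ < ‖S x‖ ∧ 0 < ‖x‖}.Nonempty := by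
      by_contra hcon
      have : ‖S‖ ≤ max (1 - r ^ 2 / 4) 0 := by
        refine ContinuousLinearMap.opNorm_le_bound _ (le_max_right _ _) fun x => ?_
        rcases eq_or_ne x 0 with rfl | hx
        · simp
        · by_contra hlt
          push Not at hlt
          exact hcon ⟨x, lt_of_le_of_lt
            (mul_le_mul_of_nonneg_right (le_max_left _ _) (norm_nonneg _)) hlt, norm_pos_iff.2 hx⟩
      rw [hSn] at this
      rcases le_max_iff.1 this with h1 | h1
      · nlinarith [sq_pos_of_pos hr0]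
      · norm_num at h1
    have hdense : Dense (Submodule.span ℂ (Set.range b) : Set H) := by
      rw [Submodule.dense_iff_topologicalClosure_eq_top]
      exact b.dense_span
    obtain ⟨x, hx1, hx2, hx3⟩ := hdense.exists_mem_open hopen hnon
    refine ⟨((‖x‖⁻¹ : ℝ) : ℂ) • x, Submodule.smul_mem _ _ hx1, ?_, ?_⟩
    · rw [norm_smul, Complex.norm_real, norm_inv, norm_norm, inv_mul_cancel₀ hx3.ne']
    · rw [map_smul, norm_smul, Complex.norm_real, norm_inv, norm_norm, lt_inv_mul_iff₀ hx3,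
        mul_comm]
      exact hx2
  have hζ4 : ‖a ζ - ζ‖ ≤ r := by
    clear * - H a ζ S haE S' hadef hSS hζ2 hS1 r hr0 n hζ3
    have h1 := norm_sub_sq (𝕜 := ℂ) (a ζ) ζ
    have h2 : RCLike.re ⟪a ζ, ζ⟫_ℂ = ‖S ζ‖ ^ 2 := by
      rw [haE.1, hadef, mul_apply_eq_comp, ← hSS]
      exact inner_self_eq_norm_sq (𝕜 := ℂ) _
    have h3 : ‖a ζ‖ ^ 2 ≤ 1 := by
      have := haE.norm_le ζ
      rw [hζ2] at this
      nlinarith [norm_nonneg (a ζ)]
    have h4 : ‖S ζ‖ ≤ 1 := hζ2 ▸ hS1 ζ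
    rw [h2, hζ2] at h1
    refine (pow_le_pow_iff_left₀ (norm_nonneg _) hr0.le two_ne_zero).1 ?_
    nlinarith [sq_nonneg (1 - ‖S ζ‖)]
  have hζ5 : ∀ k : ℕ, ‖(a ^ k) ζ - ζ‖ ≤ k * r := by
    clear * - H a ζ r G U F0 hpow_le n hζ4
    intro k
    induction k with
    | zero => simp
    | succ k ih =>
      have e1 : (a ^ (k + 1)) ζ - ζ = (a ^ k) (a ζ - ζ) + ((a ^ k) ζ - ζ) := by
        rw [pow_succ, mul_apply_eq_comp, map_sub]
        abel
      rw [e1]
      have := norm_add_le ((a ^ k) (a ζ - ζ)) ((a ^ k) ζ - ζ)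
      have := hpow_le k (a ζ - ζ)
      rw [Nat.cast_succ]
      linarith
  have hζ6 : ‖T n ζ - ζ‖ ≤ 1 / 24 := by
    clear * - n hn2 H T ζ a hT havg r hζ5 hr0 hr
    have hc : (n : ℂ) ≠ 0 := by exact_mod_cast hn2.ne'
    have e1 : T n ζ - ζ = (n : ℂ)⁻¹ • ∑ k ∈ Finset.range n, ((a ^ k) ζ - ζ) := by
      rw [hT, Finset.sum_sub_distrib, Finset.sum_const, Finset.card_range, smul_sub,
        ← Nat.cast_smul_eq_nsmul ℂ, smul_smul, inv_mul_cancel₀ hc, one_smul]
    rw [e1]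
    refine havg n _ _ (by norm_num) fun k hk => (hζ5 k).trans ?_
    have hk' : (k : ℝ) ≤ n := by exact_mod_cast hk.le
    calc (k : ℝ) * r ≤ n * r := mul_le_mul_of_nonneg_right hk' hr0.le
      _ = 1 / 24 := by rw [hr]; field_simp
  refine ⟨T n * T n, mul_mem_spanRep U (hTmem n) (hTmem n),
    isEffect_of_pair (hTsym n) (hT1 n), (hT1 n _).trans hn1.le, ζ, hζ1, hζ2, ?_⟩
  have e1 : ζ - (T n * T n) ζ = -(T n (T n ζ - ζ) + (T n ζ - ζ)) := by
    rw [mul_apply_eq_comp, map_sub]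
    abel
  rw [e1, norm_neg]
  have := norm_add_le (T n (T n ζ - ζ)) (T n ζ - ζ)
  have := hT1 n (T n ζ - ζ)
  linarith

omit [CompleteSpace H] in
theorem finite_support_coeff (b : HilbertBasis G ℂ H) (hb : ∀ s x, U s (b x) = b (s * x))
    {ξ η : H} (hξ : ξ ∈ Submodule.span ℂ (Set.range b)) (hη : η ∈ Submodule.span ℂ (Set.range b)) :
    {s : G | ⟪η, U s ξ⟫_ℂ ≠ 0}.Finite := by
  classical
  induction hξ using Submodule.span_induction with
  | mem x hx =>
    obtain ⟨x, rfl⟩ := hx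
    induction hη using Submodule.span_induction with
    | mem y hy =>
      obtain ⟨y, rfl⟩ := hy
      refine (Set.finite_singleton (y * x⁻¹)).subset fun s hs => ?_
      rw [Set.mem_ofPred_eq, hb, orthonormal_iff_ite.1 b.orthonormal] at hs
      have : y = s * x := by
        by_contra hne
        exact hs (if_neg hne)
      simp [this]
    | zero => simp
    | add y z _ _ hy hz =>
      refine (hy.union hz).subset fun s hs => ?_
      by_contra hcon
      simp only [Set.mem_union, Set.mem_ofPred_eq, not_or, not_not] at hcon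
      exact hs (by rw [inner_add_left, hcon.1, hcon.2, add_zero])
    | smul c y _ hy =>
      refine hy.subset fun s hs h0 => hs ?_
      rw [inner_smul_left, h0, mul_zero]
  | zero => simp
  | add y z _ _ hy hz =>
    refine (hy.union hz).subset fun s hs => ?_
    by_contra hcon
    simp only [Set.mem_union, Set.mem_ofPred_eq, not_or, not_not] at hcon
    exact hs (by rw [map_add, inner_add_right, hcon.1, hcon.2, add_zero])
  | smul c y _ hy =>
    refine hy.subset fun s hs h0 => hs ?_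
    rw [map_smul, inner_smul_right, h0, mul_zero]

theorem exists_bound_span (hU : IsUnitaryRep U) (b : HilbertBasis G ℂ H)
    (hb : ∀ s x, U s (b x) = b (s * x)) {ξ : H} (hξ : ξ ∈ Submodule.span ℂ (Set.range b)) :
    ∃ C : ℝ, 0 ≤ C ∧ ∀ T ∈ spanRep U, ∀ g, ‖T (U g ξ)‖ ≤ C * ‖T (b 1)‖ := by
  induction hξ using Submodule.span_induction with
  | mem x hx =>
    obtain ⟨x, rfl⟩ := hx
    exact ⟨1, zero_le_one, fun T hT g => by rw [hb, norm_apply_basis hU b hb hT, one_mul]⟩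
  | zero => exact ⟨0, le_rfl, fun T _ g => by simp⟩
  | add y z _ _ hy hz =>
    obtain ⟨C, hC, h1⟩ := hy
    obtain ⟨C', hC', h2⟩ := hz
    refine ⟨C + C', by positivity, fun T hT g => ?_⟩
    rw [map_add, map_add, add_mul]
    exact (norm_add_le _ _).trans (add_le_add (h1 T hT g) (h2 T hT g))
  | smul c y _ hy =>
    obtain ⟨C, hC, h1⟩ := hy
    refine ⟨‖c‖ * C, by positivity, fun T hT g => ?_⟩
    rw [map_smul, map_smul, norm_smul, mul_assoc]
    exact mul_le_mul_of_nonneg_left (h1 T hT g) (norm_nonneg _)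

theorem exists_data_discrete [Infinite G] (hU : IsUnitaryRep U) (b : HilbertBasis G ℂ H)
    (hb : ∀ s x, U s (b x) = b (s * x)) :
    ∃ x : ℕ → Datum G H, (∀ n, (x n).Good U) ∧ ∀ m n, m < n → (x m).Before U (x n) := by
  classical
  have hspan : ∀ g, ∀ ξ ∈ Submodule.span ℂ (Set.range b),
      U g ξ ∈ Submodule.span ℂ (Set.range b) := by
    intro g ξ hξ
    induction hξ using Submodule.span_induction with
    | mem x hx =>
      obtain ⟨x, rfl⟩ := hx
      rw [hb]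
      exact Submodule.subset_span ⟨_, rfl⟩
    | zero => simp
    | add y z _ _ hy hz => rw [map_add]; exact Submodule.add_mem _ hy hz
    | smul c y _ hy => rw [map_smul]; exact Submodule.smul_mem _ _ hy
  obtain ⟨x, hx1, hx2⟩ := exists_seq_of_forall_finset_exists
    (fun x : Datum G H => x.Good U ∧ x.ξ ∈ Submodule.span ℂ (Set.range b))
    (fun x y => x.Before U y) (by
      intro s hs
      obtain ⟨e, he0, he1, he2⟩ := exists_param U s fun x hx => (hs x hx).1
      obtain ⟨C, hC0, hC⟩ : ∃ C : ℝ, 0 < C ∧ ∀ x ∈ s, ∀ T ∈ spanRep U, ∀ g,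
          ‖T (U g x.ξ)‖ ≤ C * ‖T (b 1)‖ := by
        choose! C hC0 hC using fun x (hx : x ∈ s) => exists_bound_span hU b hb (hs x hx).2
        have h0 : 0 ≤ ∑ x ∈ s, C x := Finset.sum_nonneg hC0
        refine ⟨∑ x ∈ s, C x + 1, by linarith, fun x hx T hT g => (hC x hx T hT g).trans ?_⟩
        refine mul_le_mul_of_nonneg_right ?_ (norm_nonneg _)
        linarith [Finset.single_le_sum hC0 hx]
      obtain ⟨B, hB1, hB2, hB3, ξ, hξ1, hξ2, hξ3⟩ := exists_effect hU b hb (e / C) (by positivity)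
      have hB4 : C * ‖B (b 1)‖ ≤ e := by rwa [le_div_iff₀ hC0, mul_comm] at hB3
      have hK := finite_support_coeff b hb hξ1 hξ1
      have hK' : (⋃ x ∈ s, {t : G | ⟪U x.g x.ξ, U t x.ξ⟫_ℂ ≠ 0}).Finite :=
        s.finite_toSet.biUnion fun x hx =>
          finite_support_coeff b hb (hs x hx).2 (hspan _ _ (hs x hx).2)
      obtain ⟨g, hg⟩ := (hK'.image2 (fun p q : G => p * q⁻¹) hK).exists_notMem
      refine ⟨⟨ξ, g, B, e⟩, ⟨⟨hξ2, hB1, hB2, hξ3, he0, he1⟩, hξ1⟩, fun x hx => ?_⟩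
      refine ⟨he2 x hx, ?_, ?_, fun t => ?_⟩
      · have := hC x hx B hB1 1
        rw [U.map_one] at this
        exact this.trans hB4
      · change ‖B (U g⁻¹ (U x.g x.ξ))‖ ≤ e
        rw [rep_rep]
        exact (hC x hx B hB1 _).trans hB4
      · change _ * ⟪U g ξ, U t ξ⟫_ℂ = 0
        by_contra hcon
        obtain ⟨h1, h2⟩ := mul_ne_zero_iff.1 hcon
        rw [hU.inner_left, rep_rep] at h2
        exact hg ⟨t, Set.mem_biUnion hx h1, g⁻¹ * t, h2, by group⟩)
  exact ⟨x, fun n => (hx1 n).1, hx2⟩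

end Pool.Agent.Work.MP_129c4a_an
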