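import Pool.Agent.Work.MP_129c4a_an.Hilbert
import Mathlib.Topology.Algebra.Group.Basic
import Mathlib.Topology.Separation.Hausdorff
import Mathlib.Topology.DiscreteSubset

/-!
The gliding hump sequence for a non-discrete group.
-/

namespace Pool.Agent.Work.MP_129c4a_an

open Filter Topology
open scoped InnerProductSpace

universe u v

variable {G : Type u} [Group G] {H : Type v} [NormedAddCommGroup H] [InnerProductSpace ℂ H]

/-- the average of the operators `U (σ t)`, `t ∈ F` -/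
noncomputable def avg (U : G →* (H →L[ℂ] H)) (F : Finset G) (σ : G → G) : H →L[ℂ] H :=
  ((F.card : ℂ)⁻¹) • ∑ t ∈ F, U (σ t)

theorem avg_mem (U : G →* (H →L[ℂ] H)) (F : Finset G) (σ : G → G) : avg U F σ ∈ spanRep U :=
  Submodule.smul_mem _ _ (Submodule.sum_mem _ fun _ _ => rep_mem U _)

theorem avg_apply (U : G →* (H →L[ℂ] H)) (F : Finset G) (σ : G → G) (x : H) :
    avg U F σ x = ((F.card : ℂ)⁻¹) • ∑ t ∈ F, U (σ t) x := by
  simp [avg]

omit [Group G] in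
theorem norm_avg_sum_le {F : Finset G} (hF : F.Nonempty) (v : G → H) (r : ℝ)
    (hv : ∀ t ∈ F, ‖v t‖ ≤ r) : ‖((F.card : ℂ)⁻¹) • ∑ t ∈ F, v t‖ ≤ r := by
  have hc : (0 : ℝ) < F.card := by exact_mod_cast hF.card_pos
  rw [norm_smul, norm_inv, Complex.norm_natCast, inv_mul_le_iff₀ hc]
  refine (norm_sum_le _ _).trans ?_
  simpa using Finset.sum_le_card_nsmul F _ r hv

theorem avg_norm_le {U : G →* (H →L[ℂ] H)} (hU : IsUnitaryRep U) {F : Finset G} (hF : F.Nonempty)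
    (σ : G → G) (x : H) : ‖avg U F σ x‖ ≤ ‖x‖ := by
  rw [avg_apply]
  exact norm_avg_sum_le hF _ _ fun t _ => (hU.norm _ _).le

theorem avg_sub_le (U : G →* (H →L[ℂ] H)) {F : Finset G} (hF : F.Nonempty)
    (σ : G → G) (x : H) (r : ℝ) (h : ∀ t ∈ F, ‖U (σ t) x - x‖ ≤ r) : ‖avg U F σ x - x‖ ≤ r := by
  have hc : (F.card : ℂ) ≠ 0 := by exact_mod_cast hF.card_pos.ne'
  have : avg U F σ x - x = ((F.card : ℂ)⁻¹) • ∑ t ∈ F, (U (σ t) x - x) := by
    rw [avg_apply, Finset.sum_sub_distrib, Finset.sum_const, smul_sub, ← Nat.cast_smul_eq_nsmul ℂ,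
      smul_smul, inv_mul_cancel₀ hc, one_smul]
  rw [this]
  exact norm_avg_sum_le hF _ _ h

theorem avg_inner {U : G →* (H →L[ℂ] H)} (hU : IsUnitaryRep U) (F : Finset G) (x y : H) :
    ⟪avg U F id x, y⟫_ℂ = ⟪x, avg U F (fun t => t⁻¹) y⟫_ℂ := by
  rw [avg_apply, avg_apply, inner_smul_left, inner_smul_right, sum_inner, inner_sum]
  simp only [map_inv₀, map_natCast, id]
  congr 1
  exact Finset.sum_congr rfl fun t _ => hU.inner_left t x y

theorem avg_norm_orth {U : G →* (H →L[ℂ] H)} (hU : IsUnitaryRep U) {F : Finset G}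
    (hF : F.card = 144) {ξ : H} (hξ : ‖ξ‖ = 1)
    (ho : ∀ a ∈ F, ∀ b ∈ F, a ≠ b → ⟪ξ, U (a⁻¹ * b) ξ⟫_ℂ = 0) : ‖avg U F id ξ‖ ≤ 1 / 12 := by
  classical
  have h1 : ⟪∑ t ∈ F, U t ξ, ∑ t ∈ F, U t ξ⟫_ℂ = (144 : ℂ) := by
    rw [sum_inner]
    have : ∀ a ∈ F, ⟪U a ξ, ∑ t ∈ F, U t ξ⟫_ℂ = 1 := by
      intro a ha
      rw [inner_sum, Finset.sum_eq_single_of_mem a ha]
      · rw [hU, inner_self_eq_norm_sq_to_K, hξ]
        simp
      · intro b hb hba
        rw [hU.inner_left, rep_rep]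
        exact ho a ha b hb hba.symm
    rw [Finset.sum_congr rfl this, Finset.sum_const, hF]
    simp
  rw [inner_self_eq_norm_sq_to_K] at h1
  have h2 : ‖∑ t ∈ F, U t ξ‖ ^ 2 = (12 : ℝ) ^ 2 := by
    have : ((‖∑ t ∈ F, U t ξ‖ ^ 2 : ℝ) : ℂ) = ((144 : ℝ) : ℂ) := by
      push_cast
      exact h1
    have := Complex.ofReal_injective this
    linarith
  have h3 : ‖∑ t ∈ F, U t ξ‖ = 12 :=
    (pow_left_inj₀ (norm_nonneg _) (by norm_num) two_ne_zero).1 h2
  rw [avg_apply, norm_smul, hF]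
  simp only [id]
  rw [h3]
  norm_num

theorem exists_data_nondiscrete [TopologicalSpace G] [IsTopologicalGroup G] [T2Space G]
    (hnd : ¬ DiscreteTopology G) {U : G →* (H →L[ℂ] H)} (hU : IsUnitaryRep U)
    (hc : ∀ ξ, Continuous fun s => U s ξ)
    (hv : ∀ W ∈ 𝓝 (1 : G), ∃ ξ : H, ‖ξ‖ = 1 ∧ ∀ s, s ∉ W → ⟪ξ, U s ξ⟫_ℂ = 0) :
    ∃ x : ℕ → Datum G H, (∀ n, (x n).Good U) ∧ ∀ m n, m < n → (x m).Before U (x n) := by
  classical
  have hinf : ∀ W ∈ 𝓝 (1 : G), W.Infinite := by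
    intro W hW hfin
    apply hnd
    rw [discreteTopology_iff_isOpen_singleton_one]
    have h1 : IsClosed (W \ {1}) := (hfin.subset Set.sdiff_subset).isClosed
    have h2 : (W \ {1})ᶜ ∈ 𝓝 (1 : G) := h1.isOpen_compl.mem_nhds (by simp)
    rw [isOpen_iff_mem_nhds]
    rintro a rfl
    filter_upwards [hW, h2] with t ht1 ht2
    by_contra hne
    exact ht2 ⟨ht1, hne⟩
  have hnear : ∀ (ζ : H) (ε : ℝ), 0 < ε →
      ∀ᶠ t in 𝓝 (1 : G), ‖U t ζ - ζ‖ ≤ ε ∧ ‖U t⁻¹ ζ - ζ‖ ≤ ε := by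
    intro ζ ε hε
    have h1 : Tendsto (fun t => ‖U t ζ - ζ‖) (𝓝 (1 : G)) (𝓝 0) := by
      have := (((hc ζ).sub continuous_const (g := fun _ => ζ)).norm).tendsto 1
      simpa using this
    have h2 : Tendsto (fun t : G => ‖U t⁻¹ ζ - ζ‖) (𝓝 (1 : G)) (𝓝 0) := by
      have := ((((hc ζ).comp continuous_inv).sub continuous_const (g := fun _ => ζ)).norm).tendsto 1
      simpa using this
    exact (h1.eventually (ge_mem_nhds hε)).and (h2.eventually (ge_mem_nhds hε))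
  obtain ⟨x, hx1, hx2⟩ := exists_seq_of_forall_finset_exists
    (fun x : Datum G H => x.Good U ∧ ∀ᶠ s in 𝓝 (1 : G), ⟪U x.g x.ξ, U s x.ξ⟫_ℂ = 0)
    (fun x y => x.Before U y) (by
      intro s hs
      obtain ⟨e, he0, he1, he2⟩ := exists_param U s fun x hx => (hs x hx).1
      have hW0 : ∀ᶠ t in 𝓝 (1 : G), ∀ x ∈ s,
          ((‖U t x.ξ - x.ξ‖ ≤ e / 3 ∧ ‖U t⁻¹ x.ξ - x.ξ‖ ≤ e / 3) ∧
          (‖U t (U x.g x.ξ) - U x.g x.ξ‖ ≤ e / 3 ∧ ‖U t⁻¹ (U x.g x.ξ) - U x.g x.ξ‖ ≤ e / 3)) ∧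
          ⟪U x.g x.ξ, U t x.ξ⟫_ℂ = 0 := by
        rw [eventually_all_finset]
        intro x hx
        exact ((hnear _ _ (by linarith)).and (hnear _ _ (by linarith))).and (hs x hx).2
      obtain ⟨W, hW1, hWo, hW2⟩ := eventually_nhds_iff.1 hW0
      have hWn : W ∈ 𝓝 (1 : G) := hWo.mem_nhds hW2
      obtain ⟨F, hFW, hF⟩ := (hinf W hWn).exists_subset_card_eq 144
      have hFne : F.Nonempty := Finset.card_pos.1 (by omega)
      obtain ⟨g, hgW, hg1⟩ := (hinf W hWn).exists_notMem_finset {1}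
      have hg1' : g ≠ 1 := by simpa using hg1
      obtain ⟨M, N, hM, hN, hgM, h1N, hMN⟩ := t2_separation hg1'
      have hW' : ∀ᶠ w in 𝓝 (1 : G),
          (∀ a ∈ F, ∀ b ∈ F, a ≠ b → w ≠ a⁻¹ * b) ∧ g * w ∈ W ∩ M := by
        refine Eventually.and ?_ ?_
        · rw [eventually_all_finset]
          intro a _
          rw [eventually_all_finset]
          intro b _
          by_cases hab : a = b
          · exact Eventually.of_forall fun _ h => (h hab).elim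
          · have : (1 : G) ≠ a⁻¹ * b := fun h => hab (inv_mul_eq_one.1 h.symm)
            exact (eventually_ne_nhds this).mono fun _ h _ => h
        · have : Tendsto (fun w => g * w) (𝓝 (1 : G)) (𝓝 g) := by
            simpa using (continuous_const_mul g).tendsto 1
          exact this ((hWo.inter hM).mem_nhds ⟨hgW, hgM⟩)
      obtain ⟨ξ, hξ, hξ0⟩ := hv _ hW'
      have hu : ∀ t, t ∉ W ∩ M → ⟪U g ξ, U t ξ⟫_ℂ = 0 := by
        intro t ht
        rw [hU.inner_left, rep_rep]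
        refine hξ0 _ fun hh => ht ?_
        simpa using hh.2
      set S := avg U F id
      set S' := avg U F (fun t => t⁻¹)
      have hE0 : IsEffect (S' * S) := isEffect_of_pair (avg_inner hU F) (avg_norm_le hU hFne _)
      have hE : IsEffect (1 - S' * S) := hE0.one_sub
      have hsmall : ∀ ζ : H, (∀ t ∈ F, ‖U t ζ - ζ‖ ≤ e / 3 ∧ ‖U t⁻¹ ζ - ζ‖ ≤ e / 3) →
          ‖(1 - S' * S) ζ‖ ≤ 2 * (e / 3) := by
        intro ζ hζ
        have a1 : ‖S ζ - ζ‖ ≤ e / 3 := avg_sub_le U hFne _ _ _ fun t ht => (hζ t ht).1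
        have a2 : ‖S' ζ - ζ‖ ≤ e / 3 := avg_sub_le U hFne _ _ _ fun t ht => (hζ t ht).2
        have a3 : ‖S' (S ζ - ζ)‖ ≤ ‖S ζ - ζ‖ := avg_norm_le hU hFne _ _
        have e1 : (1 - S' * S) ζ = -(S' (S ζ - ζ) + (S' ζ - ζ)) := by
          change ζ - S' (S ζ) = _
          rw [map_sub]
          abel
        rw [e1, norm_neg]
        have := norm_add_le (S' (S ζ - ζ)) (S' ζ - ζ)
        linarith
      refine ⟨⟨ξ, g, 1 - S' * S, e⟩, ⟨⟨hξ, ?_, hE, ?_, he0, he1⟩, ?_⟩, ?_⟩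
      · exact Submodule.sub_mem _ (one_mem_spanRep U)
          (mul_mem_spanRep U (avg_mem U _ _) (avg_mem U _ _))
      · have e1 : ξ - (1 - S' * S) ξ = S' (S ξ) := by
          change ξ - (ξ - S' (S ξ)) = _
          abel
        change ‖ξ - (1 - S' * S) ξ‖ ≤ _
        rw [e1]
        refine (avg_norm_le hU hFne _ _).trans (avg_norm_orth hU hF hξ ?_)
        intro a ha b hb hab
        exact hξ0 _ fun hh => hh.1 a ha b hb hab rfl
      · filter_upwards [hN.mem_nhds h1N] with t ht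
        exact hu t fun hh => Set.disjoint_left.1 hMN hh.2 ht
      · intro x hx
        refine ⟨he2 x hx, ?_, ?_, ?_⟩
        · have := hsmall x.ξ fun t ht => (hW1 t (hFW ht) x hx).1.1
          change ‖(1 - S' * S) x.ξ‖ ≤ e
          linarith
        · have a1 := hsmall (U x.g x.ξ) fun t ht => (hW1 t (hFW ht) x hx).1.2
          have a2 := (hW1 g hgW x hx).1.2.2
          have a3 := hE.norm_le (U g⁻¹ (U x.g x.ξ) - U x.g x.ξ)
          change ‖(1 - S' * S) (U g⁻¹ (U x.g x.ξ))‖ ≤ e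
          have e1 : (1 - S' * S) (U g⁻¹ (U x.g x.ξ)) =
              (1 - S' * S) (U g⁻¹ (U x.g x.ξ) - U x.g x.ξ) + (1 - S' * S) (U x.g x.ξ) := by
            rw [map_sub]
            abel
          rw [e1]
          have := norm_add_le ((1 - S' * S) (U g⁻¹ (U x.g x.ξ) - U x.g x.ξ))
            ((1 - S' * S) (U x.g x.ξ))
          linarith
        · intro t
          change _ * ⟪U g ξ, U t ξ⟫_ℂ = 0
          by_cases ht : t ∈ W
          · rw [(hW1 t ht x hx).2, zero_mul]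
          · rw [hu t fun hh => ht hh.1, mul_zero])
  exact ⟨x, fun n => (hx1 n).1, hx2⟩

end Pool.Agent.Work.MP_129c4a_an
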