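import Pool.Agent.Work.MP_129c4a_an.Reg
import Pool.Agent.Work.MP_129c4a_an.Nondiscrete
import Pool.Agent.Work.MP_129c4a_an.Discrete
import Mathlib.MeasureTheory.Function.LpSpace.DomAct.Continuous

/-!
The radical of the bidual of the Fourier algebra of an infinite group is not zero.
-/

namespace Pool.Agent.Work.MP_129c4a_an

open MeasureTheory Filter Topology
open scoped InnerProductSpace Pointwise ENNReal

universe u v

variable {G : Type u} [Group G] [TopologicalSpace G] [IsTopologicalGroup G]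
  [LocallyCompactSpace G] [T2Space G] [MeasurableSpace G] [BorelSpace G] (μ : Measure G)
  [μ.IsHaarMeasure]

omit [T2Space G] in
theorem continuous_lam [μ.InnerRegularCompactLTTop] (ξ : Lp ℂ 2 μ) :
    Continuous fun s : G => lam μ s ξ := by
  have : Fact ((2 : ℝ≥0∞) ≠ ∞) := ⟨ENNReal.ofNat_ne_top⟩
  simp only [lam_apply]
  exact (DomMulAct.continuous_mk.comp continuous_inv).smul continuous_const

omit [LocallyCompactSpace G] [T2Space G] in
theorem inner_ind_lam {V : Set G} (hV : MeasurableSet V) (hμ : μ V ≠ ∞) (c : ℂ) (s : G) :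
    ⟪indicatorConstLp 2 hV hμ c, lam μ s (indicatorConstLp 2 hV hμ c)⟫_ℂ =
      μ.real (V ∩ (fun t => s⁻¹ * t) ⁻¹' V) • ⟪c, c⟫_ℂ := by
  rw [lam_apply, DomMulAct.mk_smul_indicatorConstLp]
  exact L2.inner_indicatorConstLp_indicatorConstLp _ _ _ _ _ _

theorem exists_small_vector (W : Set G) (hW : W ∈ 𝓝 (1 : G)) :
    ∃ ξ : Lp ℂ 2 μ, ‖ξ‖ = 1 ∧ ∀ s, s ∉ W → ⟪ξ, lam μ s ξ⟫_ℂ = 0 := by
  obtain ⟨V0, hV0, hV0W⟩ := exists_nhds_split_inv hW
  obtain ⟨V, hV1, hV2, hV3⟩ := local_compact_nhds hV0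
  have hVm : MeasurableSet V := hV3.measurableSet
  have hμ : μ V ≠ ∞ := hV3.measure_lt_top.ne
  have hpos : 0 < μ.real V :=
    ENNReal.toReal_pos (Measure.measure_pos_of_mem_nhds μ hV1).ne' hμ
  refine ⟨indicatorConstLp 2 hVm hμ (((√(μ.real V))⁻¹ : ℝ) : ℂ), ?_, fun s hs => ?_⟩
  · rw [norm_indicatorConstLp two_ne_zero ENNReal.ofNat_ne_top, Complex.norm_real, norm_inv,
      Real.norm_of_nonneg (Real.sqrt_nonneg _), Real.sqrt_eq_rpow, ENNReal.toReal_ofNat]
    exact inv_mul_cancel₀ (Real.rpow_pos_of_pos hpos _).ne'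
  · rw [inner_ind_lam]
    have : V ∩ (fun t => s⁻¹ * t) ⁻¹' V = ∅ := by
      refine Set.eq_empty_of_forall_notMem fun t ht => hs ?_
      have := hV0W t (hV2 ht.1) (s⁻¹ * t) (hV2 ht.2)
      simpa using this
    rw [this]
    simp

omit [LocallyCompactSpace G] [T2Space G] in
theorem exists_basis_discrete [DiscreteTopology G] :
    ∃ b : HilbertBasis G ℂ (Lp ℂ 2 μ), ∀ s x, lam μ s (b x) = b (s * x) := by
  classical
  have hm : ∀ x : G, MeasurableSet ({x} : Set G) := fun x => measurableSet_singleton x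
  have hμ : ∀ x : G, μ {x} ≠ ∞ := fun x => isCompact_singleton.measure_lt_top.ne
  have hμ0 : ∀ x : G, μ {x} ≠ 0 := fun x =>
    ((isOpen_discrete {x}).measure_pos μ (Set.singleton_nonempty x)).ne'
  have hpos : 0 < μ.real {1} := ENNReal.toReal_pos (hμ0 1) (hμ 1)
  have hre : ∀ x : G, μ.real {x} = μ.real {1} := fun x => by
    rw [measureReal_def, measureReal_def, Measure.haar_singleton]
  set c : ℂ := (((√(μ.real {1}))⁻¹ : ℝ) : ℂ) with hc
  have hc0 : c ≠ 0 := by
    rw [hc, Complex.ofReal_ne_zero]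
    exact inv_ne_zero (Real.sqrt_pos.2 hpos).ne'
  let e : G → Lp ℂ 2 μ := fun x => indicatorConstLp 2 (hm x) (hμ x) c
  have he : Orthonormal ℂ e := by
    refine ⟨fun x => ?_, fun x y hxy => ?_⟩
    · rw [norm_indicatorConstLp two_ne_zero ENNReal.ofNat_ne_top, hc, Complex.norm_real, norm_inv,
        Real.norm_of_nonneg (Real.sqrt_nonneg _), Real.sqrt_eq_rpow, ENNReal.toReal_ofNat, hre x]
      exact inv_mul_cancel₀ (Real.rpow_pos_of_pos hpos _).ne'
    · change ⟪e x, e y⟫_ℂ = 0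
      rw [L2.inner_indicatorConstLp_indicatorConstLp (hm x) (hm y) (hμ x) (hμ y),
        Set.singleton_inter_eq_empty.2 (by simpa using hxy)]
      simp
  have hsp : (Submodule.span ℂ (Set.range e))ᗮ = ⊥ := by
    rw [Submodule.eq_bot_iff]
    intro f hf
    have h1 : ∀ x, f x = 0 := by
      intro x
      have h2 : ⟪e x, f⟫_ℂ = 0 :=
        Submodule.inner_right_of_mem_orthogonal
          (Submodule.subset_span (Set.mem_range_self (f := e) x)) hf
      rw [L2.inner_indicatorConstLp_eq_inner_setIntegral, integral_singleton, hre] at h2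
      simpa [hc0, hpos.ne'] using h2
    have h3 : (f : G → ℂ) =ᵐ[μ] 0 := Eventually.of_forall h1
    exact Lp.ext (h3.trans (Lp.coeFn_zero ℂ 2 μ).symm)
  refine ⟨HilbertBasis.mkOfOrthogonalEqBot he hsp, fun s x => ?_⟩
  rw [HilbertBasis.coe_mkOfOrthogonalEqBot, lam_apply, DomMulAct.mk_smul_indicatorConstLp]
  change _ = indicatorConstLp 2 (hm (s * x)) (hμ (s * x)) c
  congr 1
  ext t
  simp

theorem exists_rad [Infinite G] [μ.InnerRegularCompactLTTop] {A : Type v} [NonUnitalNormedRing A]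
    [NormedSpace ℂ A] [IsScalarTower ℂ A A] [SMulCommClass ℂ A A] {ι : A → G → ℂ}
    (h : IsFourierAlgebra μ A ι) : ∃ Ψ : ArensBidual A, Ψ ≠ 0 ∧ Ψ ∈ rad (ArensBidual A) := by
  by_cases hd : DiscreteTopology G
  · obtain ⟨b, hb⟩ := exists_basis_discrete μ
    obtain ⟨x, hx, hxx⟩ := exists_data_discrete (isUnitaryRep_lam μ) b hb
    exact h.exists_rad_of_data x hx hxx
  · obtain ⟨x, hx, hxx⟩ := exists_data_nondiscrete hd (isUnitaryRep_lam μ) (continuous_lam μ)
      (exists_small_vector μ)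
    exact h.exists_rad_of_data x hx hxx

end Pool.Agent.Work.MP_129c4a_an
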