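import Pool.Agent.Work.MP_129c4a_an.Factor
import Pool.Agent.Work.MP_129c4a_an.Main
import Mathlib.MeasureTheory.Function.ContinuousMapDense
import Mathlib.MeasureTheory.Integral.Prod
import Mathlib.MeasureTheory.Group.Integral
import Mathlib.Topology.ContinuousMap.CompactlySupported
import Mathlib.Analysis.Normed.Operator.Extend

/-!
Vectors with a compactly supported coefficient function give intertwiners from the regular
representation.
-/

namespace Pool.Agent.Work.MP_129c4a_an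

open MeasureTheory Filter Topology
open scoped InnerProductSpace ENNReal CompactlySupported

universe u v w

variable {G : Type u} [Group G] [TopologicalSpace G] [IsTopologicalGroup G]
  [LocallyCompactSpace G] [T2Space G] [MeasurableSpace G] [BorelSpace G] (μ : Measure G)
  [μ.IsHaarMeasure]
  {H : Type v} [NormedAddCommGroup H] [InnerProductSpace ℂ H] [CompleteSpace H]
  {K : Type w} [NormedAddCommGroup K] [InnerProductSpace ℂ K] [CompleteSpace K]

/-- the vector `∫ f(s) π(σ s) x ds` -/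
noncomputable def smear (π : G →* (K →L[ℂ] K)) (f : G → ℂ) (σ : G → G) (x : K) : K :=
  ∫ s, f s • π (σ s) x ∂μ

variable {μ} {π : G →* (K →L[ℂ] K)} {U : G →* (H →L[ℂ] H)}

omit [IsTopologicalGroup G] [LocallyCompactSpace G] [T2Space G] [CompleteSpace K] in
theorem integrable_smear (hc : ∀ x, Continuous fun s => π s x) (f : C_c(G, ℂ)) {σ : G → G}
    (hσ : Continuous σ) (x : K) : Integrable (fun s => f s • π (σ s) x) μ :=
  (f.continuous.smul ((hc x).comp hσ)).integrable_of_hasCompactSupport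
    f.hasCompactSupport.smul_right

omit [IsTopologicalGroup G] [LocallyCompactSpace G] [T2Space G] in
theorem inner_smear (hc : ∀ x, Continuous fun s => π s x) (f : C_c(G, ℂ)) {σ : G → G}
    (hσ : Continuous σ) (x y : K) :
    ⟪y, smear μ π f σ x⟫_ℂ = ∫ s, f s * ⟪y, π (σ s) x⟫_ℂ ∂μ := by
  rw [smear, ← integral_inner (integrable_smear hc f hσ x)]
  simp only [inner_smul_right]

omit [IsTopologicalGroup G] [LocallyCompactSpace G] [T2Space G] in
theorem IsInt.smear {Y : H →L[ℂ] K} (hY : IsInt U π Y) (hc : ∀ x, Continuous fun s => U s x)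
    (f : C_c(G, ℂ)) {σ : G → G} (hσ : Continuous σ) (x : H) :
    Y (smear μ U f σ x) = smear μ π f σ (Y x) := by
  unfold Pool.Agent.Work.MP_129c4a_an.smear
  rw [← Y.integral_comp_comm (integrable_smear hc f hσ x)]
  simp only [map_smul, hY _ _]

omit [LocallyCompactSpace G] [T2Space G] in
theorem smear_adj (hπ : IsUnitaryRep π) (hc : ∀ x, Continuous fun s => π s x) (f : C_c(G, ℂ))
    (hf : ∀ s, (starRingEnd ℂ) (f s) = f s) (x y : K) :
    ⟪smear μ π f (fun s => s⁻¹) x, y⟫_ℂ = ⟪x, smear μ π f id y⟫_ℂ := by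
  rw [← inner_conj_symm, inner_smear hc f continuous_inv, inner_smear hc f continuous_id,
    ← integral_conj]
  refine integral_congr_ae (Eventually.of_forall fun s => ?_)
  simp only [map_mul, hf, inner_conj_symm, id]
  rw [hπ.inner_left, inv_inv]

omit [IsTopologicalGroup G] [LocallyCompactSpace G] [T2Space G] [CompleteSpace K] [BorelSpace G]
  [TopologicalSpace G] [μ.IsHaarMeasure] in
theorem norm_smear_le (hπ : IsUnitaryRep π) (f : G → ℂ) (σ : G → G) (x : K) :
    ‖smear μ π f σ x‖ ≤ (∫ s, ‖f s‖ ∂μ) * ‖x‖ := by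
  refine (norm_integral_le_integral_norm _).trans (le_of_eq ?_)
  simp only [norm_smul, hπ.norm]
  exact integral_mul_const _ _

variable (μ) in
/-- continuous functions of compact support as elements of `L²` -/
noncomputable def toL2 : C_c(G, ℂ) →ₗ[ℂ] Lp ℂ 2 μ where
  toFun f := (f.continuous.memLp_of_hasCompactSupport f.hasCompactSupport).toLp f
  map_add' _ _ := rfl
  map_smul' _ _ := rfl

omit [IsTopologicalGroup G] [LocallyCompactSpace G] [T2Space G] in
theorem toL2_ae (f : C_c(G, ℂ)) : toL2 μ f =ᵐ[μ] f :=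
  (f.continuous.memLp_of_hasCompactSupport f.hasCompactSupport).coeFn_toLp

omit [IsTopologicalGroup G] [LocallyCompactSpace G] [T2Space G] in
theorem norm_toL2_sq (f : C_c(G, ℂ)) : ‖toL2 μ f‖ ^ 2 = ∫ s, ‖f s‖ ^ 2 ∂μ := by
  have h1 : ⟪toL2 μ f, toL2 μ f⟫_ℂ = ∫ s, ((‖f s‖ ^ 2 : ℝ) : ℂ) ∂μ := by
    rw [L2.inner_def]
    refine integral_congr_ae ?_
    filter_upwards [toL2_ae (μ := μ) f] with s hs
    rw [hs, inner_self_eq_norm_sq_to_K]
    simp
  rw [inner_self_eq_norm_sq_to_K, integral_complex_ofReal] at h1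
  apply Complex.ofReal_injective
  rw [← h1]
  simp

omit [IsTopologicalGroup G] in
theorem exists_approx [μ.InnerRegularCompactLTTop] {f : G → ℂ} (hf : MemLp f 2 μ) {ε : ℝ≥0∞}
    (hε : ε ≠ 0) : ∃ g : G → ℂ, eLpNorm (f - g) 2 μ ≤ ε ∧ HasCompactSupport g ∧ Continuous g := by
  apply hf.induction_dense ENNReal.ofNat_ne_top _ _ _ _ hε
  rotate_left
  · rintro f g ⟨hf1, hf2⟩ ⟨hg1, hg2⟩
    exact ⟨hf1.add hg1, hf2.add hg2⟩
  · rintro f ⟨hf1, hf2⟩
    exact (hf2.memLp_of_hasCompactSupport (p := 2) hf1).aestronglyMeasurable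
  intro c t ht htμ ε hε
  obtain ⟨η, ηpos, hη⟩ := exists_eLpNorm_indicator_le (μ := μ) (p := 2) ENNReal.ofNat_ne_top c hε
  have hη2 : (η : ℝ≥0∞) / 2 ≠ 0 := by simp [ηpos.ne']
  obtain ⟨s, st, hs, hμs⟩ := ht.exists_isCompact_sdiff_lt htμ.ne hη2
  obtain ⟨V, sV, hV, hμV⟩ := hs.exists_isOpen_lt_add (μ := μ) hη2
  have hμV' := measure_sdiff_lt_of_lt_add hs.measurableSet.nullMeasurableSet sV
    hs.measure_lt_top.ne hμV
  obtain ⟨g, hg1, hg2, hg3, hg4⟩ := exists_continuousMap_one_of_isCompact_subset_isOpen hs hV sV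
  have hg5 : HasCompactSupport fun x => g x • c :=
    HasCompactSupport.comp_left (f := fun x => g x) (g := fun r : ℝ => r • c) hg2 (zero_smul _ _)
  refine ⟨fun x => g x • c, (eLpNorm_mono (g := ((V \ s) ∪ (t \ s)).indicator fun _ => c)
    fun x => ?_).trans (hη _ ?_), hg5, by fun_prop⟩
  · have h0 := (hg4 x).1
    have h1 := (hg4 x).2
    by_cases hxs : x ∈ s
    · simp [hg1 hxs, st hxs]
    by_cases hxt : x ∈ t
    · rw [Pi.sub_apply, Set.indicator_of_mem hxt,
        Set.indicator_of_mem (show x ∈ (V \ s) ∪ (t \ s) from Or.inr ⟨hxt, hxs⟩)]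
      have e1 : g x • c - c = (g x - 1) • c := by rw [sub_smul, one_smul]
      rw [e1, norm_smul, Real.norm_eq_abs, abs_of_nonpos (by linarith)]
      nlinarith [norm_nonneg c]
    by_cases hxV : x ∈ V
    · rw [Pi.sub_apply, Set.indicator_of_notMem hxt,
        Set.indicator_of_mem (show x ∈ (V \ s) ∪ (t \ s) from Or.inl ⟨hxV, hxs⟩),
        sub_zero, norm_smul, Real.norm_of_nonneg h0]
      nlinarith [norm_nonneg c]
    · simp [hxt, image_eq_zero_of_notMem_tsupport fun h => hxV (hg3 h)]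
  · refine (measure_union_le _ _).trans ?_
    rw [← ENNReal.add_halves η]
    exact add_le_add hμV'.le hμs.le

omit [IsTopologicalGroup G] in
theorem denseRange_toL2 [μ.InnerRegularCompactLTTop] : DenseRange (toL2 μ) := by
  intro f
  refine (mem_closure_iff_nhds_basis Metric.nhds_basis_closedEBall).2 fun ε hε => ?_
  obtain ⟨g, hg2, hg1, hg3⟩ := exists_approx (Lp.memLp f) hε.ne'
  refine ⟨_, ⟨⟨⟨g, hg3⟩, hg1⟩, rfl⟩, ?_⟩
  rw [Metric.mem_closedEBall, edist_comm, Lp.edist_def]
  refine le_trans (le_of_eq (eLpNorm_congr_ae ?_)) hg2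
  filter_upwards [toL2_ae (μ := μ) ⟨⟨g, hg3⟩, hg1⟩] with s hs
  rw [Pi.sub_apply, Pi.sub_apply, hs]
  rfl

omit [LocallyCompactSpace G] [T2Space G] in
theorem schur (hπ : IsUnitaryRep π) (hc : ∀ x, Continuous fun s => π s x) {Γ : K}
    (hΓ : HasCompactSupport fun s => ⟪Γ, π s Γ⟫_ℂ) (f : C_c(G, ℂ)) :
    ‖smear μ π f id Γ‖ ^ 2 ≤ (∫ s, ‖⟪Γ, π s Γ⟫_ℂ‖ ∂μ) * ∫ s, ‖f s‖ ^ 2 ∂μ := by
  set φ : G → ℝ := fun s => ‖⟪Γ, π s Γ⟫_ℂ‖ with hφ
  have hφc : Continuous φ := (continuous_const.inner (hc Γ)).norm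
  have hφs : HasCompactSupport φ := hΓ.norm
  have hφi : ∀ s, φ s⁻¹ = φ s := fun s => by
    simp only [hφ]
    rw [← hπ.inner_left, norm_inner_symm]
  set c := ∫ s, φ s ∂μ with hcdef
  have hfc : Continuous fun s => ‖f s‖ ^ 2 / 2 := by have := f.continuous; fun_prop
  have hfs : HasCompactSupport fun s => ‖f s‖ ^ 2 / 2 :=
    f.hasCompactSupport.comp_left (g := fun z : ℂ => ‖z‖ ^ 2 / 2) (by simp)
  have hφt : ∀ s, HasCompactSupport fun t => φ (s⁻¹ * t) := fun s =>
    hφs.comp_homeomorph (Homeomorph.mulLeft s⁻¹)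
  set v := smear μ π f id Γ with hv
  let g : G → G → ℝ := fun s t => ‖f t‖ ^ 2 / 2 * φ (s⁻¹ * t)
  have hgc : Continuous g.uncurry :=
    (hfc.comp continuous_snd).mul (hφc.comp (continuous_fst.inv.mul continuous_snd))
  let M : Set G := (fun p : G × G => p.1 * p.2⁻¹) '' (tsupport f ×ˢ tsupport φ)
  have hM : IsCompact M :=
    (f.hasCompactSupport.isCompact.prod hφs.isCompact).image (continuous_fst.mul continuous_snd.inv)
  have hg1 : ∀ s t, t ∉ tsupport f → g s t = 0 := fun s t ht => by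
    simp [g, image_eq_zero_of_notMem_tsupport ht]
  have hg2 : ∀ s t, s ∉ M → g s t = 0 := by
    intro s t hs
    by_cases ht : t ∈ tsupport f
    · have : s⁻¹ * t ∉ tsupport φ := fun h => hs ⟨(t, s⁻¹ * t), ⟨ht, h⟩, by simp⟩
      simp [g, image_eq_zero_of_notMem_tsupport this]
    · exact hg1 s t ht
  have hgs : HasCompactSupport g.uncurry := by
    refine HasCompactSupport.intro (hM.prod f.hasCompactSupport.isCompact) ?_
    rintro ⟨s, t⟩ hst
    by_cases hs : s ∈ M
    · exact hg1 s t fun ht => hst ⟨hs, ht⟩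
    · exact hg2 s t hs
  have hPc : Continuous fun s => ∫ t, g s t ∂μ := by
    rw [← continuousOn_univ]
    exact continuousOn_integral_of_compact_support f.hasCompactSupport.isCompact hgc.continuousOn
      fun s t _ ht => hg1 s t ht
  have hPs : HasCompactSupport fun s => ∫ t, g s t ∂μ :=
    HasCompactSupport.intro hM fun s hs => by simp [hg2 s _ hs]
  have hPi : ∫ s, ∫ t, g s t ∂μ ∂μ = (∫ t, ‖f t‖ ^ 2 / 2 ∂μ) * c := by
    rw [integral_integral_swap_of_hasCompactSupport hgc hgs, ← integral_mul_const]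
    refine integral_congr_ae (Eventually.of_forall fun t => ?_)
    simp only [g]
    rw [integral_const_mul, hcdef, ← integral_mul_left_eq_self φ t⁻¹]
    congr 1
    refine integral_congr_ae (Eventually.of_forall fun s => ?_)
    simp only
    rw [← hφi, mul_inv_rev, inv_inv]
  have hb : ∀ s, ‖f s * ⟪v, π (id s) Γ⟫_ℂ‖ ≤ ‖f s‖ ^ 2 / 2 * c + ∫ t, g s t ∂μ := by
    intro s
    have hi1 : Integrable (fun t => ‖f s‖ ^ 2 / 2 * φ (s⁻¹ * t)) μ :=
      ((hφc.comp (continuous_const.mul continuous_id)).integrable_of_hasCompactSupport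
        (hφt s)).const_mul _
    have hi2 : Integrable (g s) μ :=
      (hgc.comp (Continuous.prodMk_right s)).integrable_of_hasCompactSupport hfs.mul_right
    rw [norm_mul, norm_inner_symm, hv, inner_smear hc f continuous_id, hcdef,
      ← integral_mul_left_eq_self φ s⁻¹, ← integral_const_mul, ← integral_add hi1 hi2,
      ← norm_mul, ← integral_const_mul]
    refine norm_integral_le_of_norm_le (hi1.add hi2) (Eventually.of_forall fun t => ?_)
    have e1 : ‖⟪π (id s) Γ, π (id t) Γ⟫_ℂ‖ = φ (s⁻¹ * t) := by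
      rw [hπ.inner_left, rep_rep]
      rfl
    rw [norm_mul, norm_mul, e1]
    have h0 : 0 ≤ φ (s⁻¹ * t) := norm_nonneg _
    simp only [g]
    nlinarith [mul_nonneg h0 (sq_nonneg (‖f s‖ - ‖f t‖))]
  have hi3 : Integrable (fun s => ‖f s‖ ^ 2 / 2 * c) μ :=
    (hfc.integrable_of_hasCompactSupport hfs).mul_const _
  have hi4 : Integrable (fun s => ∫ t, g s t ∂μ) μ := hPc.integrable_of_hasCompactSupport hPs
  have h1 : ‖v‖ ^ 2 = ‖⟪v, v⟫_ℂ‖ := by
    rw [inner_self_eq_norm_sq_to_K]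
    simp
  rw [h1]
  conv_lhs => enter [1, 3]; rw [hv]
  rw [inner_smear hc f continuous_id]
  refine (norm_integral_le_of_norm_le (hi3.add hi4) (Eventually.of_forall hb)).trans (le_of_eq ?_)
  simp only [Pi.add_apply]
  rw [integral_add hi3 hi4, hPi, integral_mul_const, integral_div]
  ring

theorem exists_int [μ.InnerRegularCompactLTTop] (hπ : IsUnitaryRep π) (hc : ∀ x, Continuous fun s => π s x) {Γ : K}
    (hΓ : HasCompactSupport fun s => ⟪Γ, π s Γ⟫_ℂ) :
    ∃ R : Lp ℂ 2 μ →L[ℂ] K, IsInt (lam μ) π R ∧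
      ∀ f : C_c(G, ℂ), R (toL2 μ f) = smear μ π f id Γ := by
  let L : C_c(G, ℂ) →ₗ[ℂ] K :=
    { toFun := fun f => smear μ π f id Γ
      map_add' := fun f g => by
        unfold smear
        rw [← integral_add (integrable_smear hc f continuous_id Γ)
          (integrable_smear hc g continuous_id Γ)]
        simp only [CompactlySupportedContinuousMap.add_apply, add_smul]
      map_smul' := fun c f => by
        unfold smear
        rw [← integral_smul]
        simp only [CompactlySupportedContinuousMap.smul_apply, smul_smul, RingHom.id_apply,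
          smul_eq_mul] }
  have hL : ∃ C, ∀ f, ‖L f‖ ≤ C * ‖toL2 μ f‖ := by
    have h0 : 0 ≤ ∫ s, ‖⟪Γ, π s Γ⟫_ℂ‖ ∂μ := integral_nonneg fun s => norm_nonneg _
    refine ⟨√(∫ s, ‖⟪Γ, π s Γ⟫_ℂ‖ ∂μ), fun f => ?_⟩
    refine (pow_le_pow_iff_left₀ (norm_nonneg _) (by positivity) two_ne_zero).1 ?_
    rw [mul_pow, Real.sq_sqrt h0, norm_toL2_sq]
    exact schur hπ hc hΓ f
  have hR := fun f => LinearMap.extendOfNorm_eq (f := L) denseRange_toL2 hL f
  refine ⟨L.extendOfNorm (toL2 μ), fun s x => ?_, hR⟩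
  refine denseRange_toL2.induction_on x (isClosed_eq (by fun_prop) (by fun_prop)) fun f => ?_
  let f' : C_c(G, ℂ) := ⟨⟨fun t => f (s⁻¹ * t), f.continuous.comp (continuous_const.mul
    continuous_id)⟩, f.hasCompactSupport.comp_homeomorph (Homeomorph.mulLeft s⁻¹)⟩
  have e1 : lam μ s (toL2 μ f) = toL2 μ f' := by
    refine Lp.ext ((lamOp_ae μ s _).trans (EventuallyEq.trans ?_ (toL2_ae f').symm))
    exact (measurePreserving_mul_left μ s⁻¹).quasiMeasurePreserving.ae_eq_comp (toL2_ae f)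
  rw [e1, hR, hR]
  change smear μ π f' id Γ = π s (smear μ π f id Γ)
  unfold smear
  rw [← (π s).integral_comp_comm (integrable_smear hc f continuous_id Γ),
    ← integral_mul_left_eq_self _ s]
  refine integral_congr_ae (Eventually.of_forall fun t => ?_)
  change f (s⁻¹ * (s * t)) • π (s * t) Γ = π s (f t • π t Γ)
  rw [inv_mul_cancel_left, map_smul, rep_rep]

end Pool.Agent.Work.MP_129c4a_an
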