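import Mathlib.MeasureTheory.Function.L2Space
import Mathlib.MeasureTheory.Group.Measure
import Mathlib.Analysis.Normed.Operator.Mul
import Mathlib.Analysis.Normed.Module.Dual
import Mathlib.Algebra.Algebra.Unitization
import Mathlib.RingTheory.Jacobson.Radical

/-!
The Fourier algebra, the first Arens product and the Jacobson radical.
-/

namespace Pool.Agent.Work.MP_129c4a_an

open MeasureTheory

universe u v

section Fourier

variable {G : Type u} [Group G] [MeasurableSpace G] (μ : Measure G)

/-- The coefficient function `s ↦ ⟨λ(s) ξ, η⟩` of the left regular representation,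
`(λ(s) ξ)(t) = ξ(s⁻¹ t)`. -/
noncomputable def coeff (ξ η : Lp ℂ 2 μ) (s : G) : ℂ :=
  ∫ t, ξ (s⁻¹ * t) * (starRingEnd ℂ) (η t) ∂μ

/-- The set of all coefficient functions of the left regular representation. -/
def coeffSet : Set (G → ℂ) := {u | ∃ ξ η : Lp ℂ 2 μ, u = coeff μ ξ η}

/-- The infimum of `‖ξ‖ ‖η‖` over all representations of `u` as a coefficient function. -/
noncomputable def coeffNorm (u : G → ℂ) : ℝ :=
  sInf {r : ℝ | ∃ ξ η : Lp ℂ 2 μ, u = coeff μ ξ η ∧ r = ‖ξ‖ * ‖η‖}

end Fourier

section Arens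

variable {A : Type v} [NonUnitalNormedRing A] [NormedSpace ℂ A] [IsScalarTower ℂ A A]
  [SMulCommClass ℂ A A]

/-- Step 1: `⟨f · a, b⟩ = ⟨f, a b⟩`, as a continuous linear map in `a`. -/
noncomputable def dualAct (f : StrongDual ℂ A) : A →L[ℂ] StrongDual ℂ A :=
  (ContinuousLinearMap.compL ℂ A A ℂ f).comp (ContinuousLinearMap.mul ℂ A)

theorem dualAct_apply (f : StrongDual ℂ A) (a b : A) : dualAct f a b = f (a * b) := rfl

theorem norm_dualAct_le (f : StrongDual ℂ A) : ‖dualAct f‖ ≤ ‖f‖ := by
  refine ContinuousLinearMap.opNorm_le_bound₂ _ (norm_nonneg f) fun a b => ?_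
  rw [dualAct_apply, mul_assoc]
  exact (f.le_opNorm _).trans (mul_le_mul_of_nonneg_left (norm_mul_le a b) (norm_nonneg f))

/-- Step 2: `⟨Ψ · f, a⟩ = ⟨Ψ, f · a⟩`, as a continuous linear map in `f`. -/
noncomputable def bidualAct (Ψ : StrongDual ℂ (StrongDual ℂ A)) :
    StrongDual ℂ A →L[ℂ] StrongDual ℂ A :=
  LinearMap.mkContinuous
    { toFun := fun f => Ψ.comp (dualAct f)
      map_add' := fun f g => by
        ext a
        have : dualAct (f + g) a = dualAct f a + dualAct g a := by ext b; rfl
        simp [this]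
      map_smul' := fun c f => by
        ext a
        have : dualAct (c • f) a = c • dualAct f a := by ext b; rfl
        simp [this] }
    ‖Ψ‖ (fun f => (Ψ.opNorm_comp_le _).trans
      (mul_le_mul_of_nonneg_left (norm_dualAct_le f) (norm_nonneg Ψ)))

theorem bidualAct_apply (Ψ : StrongDual ℂ (StrongDual ℂ A)) (f : StrongDual ℂ A) (a : A) :
    bidualAct Ψ f a = Ψ (dualAct f a) := rfl

/-- Step 3, the first Arens product: `⟨Φ □ Ψ, f⟩ = ⟨Φ, Ψ · f⟩`. -/
noncomputable def arens (Φ Ψ : StrongDual ℂ (StrongDual ℂ A)) : StrongDual ℂ (StrongDual ℂ A) :=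
  Φ.comp (bidualAct Ψ)

theorem arens_apply (Φ Ψ : StrongDual ℂ (StrongDual ℂ A)) (f : StrongDual ℂ A) :
    arens Φ Ψ f = Φ (bidualAct Ψ f) := rfl

/-- The bidual `A''`, to be given the first Arens product. -/
def ArensBidual (A : Type v) [NonUnitalNormedRing A] [NormedSpace ℂ A] : Type v :=
  StrongDual ℂ (StrongDual ℂ A)

noncomputable instance : AddCommGroup (ArensBidual A) :=
  (inferInstance : AddCommGroup (StrongDual ℂ (StrongDual ℂ A)))

noncomputable instance : Module ℂ (ArensBidual A) :=
  (inferInstance : Module ℂ (StrongDual ℂ (StrongDual ℂ A)))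

theorem bidualAct_arens (Φ Ψ : StrongDual ℂ (StrongDual ℂ A)) (f : StrongDual ℂ A) :
    bidualAct (arens Φ Ψ) f = bidualAct Φ (bidualAct Ψ f) := by
  ext a
  rw [bidualAct_apply, arens_apply, bidualAct_apply]
  congr 1
  ext b
  rw [bidualAct_apply, dualAct_apply, bidualAct_apply]
  congr 1
  ext c
  rw [dualAct_apply, dualAct_apply, dualAct_apply, mul_assoc]

noncomputable instance : NonUnitalRing (ArensBidual A) where
  mul := arens
  left_distrib Φ Ψ Ξ := by
    refine ContinuousLinearMap.ext fun f => ?_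
    have : bidualAct (show StrongDual ℂ (StrongDual ℂ A) from Ψ + Ξ) f =
        bidualAct Ψ f + bidualAct Ξ f := by ext a; rfl
    exact (congrArg (show StrongDual ℂ (StrongDual ℂ A) from Φ) this).trans (map_add _ _ _)
  right_distrib Φ Ψ Ξ := ContinuousLinearMap.ext fun _ => rfl
  zero_mul Φ := ContinuousLinearMap.ext fun _ => rfl
  mul_zero Φ := by
    refine ContinuousLinearMap.ext fun f => ?_
    have : bidualAct (0 : StrongDual ℂ (StrongDual ℂ A)) f = 0 := by ext a; rfl
    exact (congrArg (show StrongDual ℂ (StrongDual ℂ A) from Φ) this).trans (map_zero _)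
  mul_assoc Φ Ψ Ξ := ContinuousLinearMap.ext fun f =>
    congrArg (show StrongDual ℂ (StrongDual ℂ A) from Φ) (bidualAct_arens Ψ Ξ f).symm

instance : IsScalarTower ℂ (ArensBidual A) (ArensBidual A) where
  smul_assoc _ _ _ := ContinuousLinearMap.ext fun _ => rfl

instance : SMulCommClass ℂ (ArensBidual A) (ArensBidual A) where
  smul_comm c Φ Ψ := by
    refine ContinuousLinearMap.ext fun f => ?_
    have : bidualAct (show StrongDual ℂ (StrongDual ℂ A) from c • Ψ) f = c • bidualAct Ψ f := by
      ext a; rfl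
    exact ((congrArg (show StrongDual ℂ (StrongDual ℂ A) from Φ) this).trans
      (map_smul _ _ _)).symm

end Arens

/-- The Jacobson radical of a complex algebra `B` that need not have an identity: the elements of
`B` that lie in the Jacobson radical of the unitization of `B`. -/
def rad (B : Type v) [NonUnitalRing B] [Module ℂ B] [IsScalarTower ℂ B B] [SMulCommClass ℂ B B] :
    Set B :=
  {x | (x : Unitization ℂ B) ∈ Ring.jacobson (Unitization ℂ B)}

end Pool.Agent.Work.MP_129c4a_an
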