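import Pool.Agent.Work.MP_129c4a_an.Bounded
import Mathlib.Analysis.InnerProductSpace.TensorProduct
import Mathlib.Analysis.InnerProductSpace.Completion
import Mathlib.Analysis.InnerProductSpace.PiL2
import Mathlib.Topology.Algebra.LinearMapCompletion

/-!
Eymard's theorem: sums and products of coefficient functions of the regular representation are
coefficient functions of the regular representation, with control of the norms.
-/

namespace Pool.Agent.Work.MP_129c4a_an

open MeasureTheory Filter Topology UniformSpace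
open scoped InnerProductSpace ENNReal CompactlySupported TensorProduct

universe u v w

section Reps

variable {G : Type u} [Group G] {E : Type v} [NormedAddCommGroup E] [InnerProductSpace ℂ E]
  {L : Type w} [NormedAddCommGroup L] [InnerProductSpace ℂ L]

/-- the extension of a representation to the completion -/
noncomputable def complRep (V : G →* (E →L[ℂ] E)) : G →* (Completion E →L[ℂ] Completion E) where
  toFun s := (V s).completion
  map_one' := by
    refine ContinuousLinearMap.ext fun x => ?_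
    refine Completion.induction_on x (isClosed_eq (by fun_prop) (by fun_prop)) fun a => ?_
    rw [ContinuousLinearMap.completion_apply_coe, V.map_one]
    rfl
  map_mul' s t := by
    refine ContinuousLinearMap.ext fun x => ?_
    refine Completion.induction_on x (isClosed_eq (by fun_prop) (by fun_prop)) fun a => ?_
    rw [mul_apply_eq_comp, ContinuousLinearMap.completion_apply_coe,
      ContinuousLinearMap.completion_apply_coe, ContinuousLinearMap.completion_apply_coe, rep_rep]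

theorem complRep_coe (V : G →* (E →L[ℂ] E)) (s : G) (a : E) :
    complRep V s (a : Completion E) = (V s a : E) :=
  ContinuousLinearMap.completion_apply_coe _ _

theorem IsUnitaryRep.compl {V : G →* (E →L[ℂ] E)} (hV : IsUnitaryRep V) :
    IsUnitaryRep (complRep V) := by
  intro s x y
  refine Completion.induction_on₂ x y (isClosed_eq (by fun_prop) (by fun_prop)) fun a b => ?_
  rw [complRep_coe, complRep_coe, Completion.inner_coe, Completion.inner_coe, hV]

theorem continuous_complRep [TopologicalSpace G] {V : G →* (E →L[ℂ] E)} (hV : IsUnitaryRep V)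
    (hc : ∀ a, Continuous fun s => V s a) (x : Completion E) :
    Continuous fun s => complRep V s x := by
  refine continuous_of_uniform_approx_of_continuous fun u hu => ?_
  obtain ⟨ε, hε, hu'⟩ := Metric.mem_uniformity_dist.1 hu
  obtain ⟨a, ha⟩ := Completion.denseRange_coe.exists_dist_lt x hε
  refine ⟨fun s => complRep V s a, ?_, fun s => hu' ?_⟩
  · simp only [complRep_coe]
    exact (Completion.continuous_coe E).comp (hc a)
  · rwa [dist_eq_norm, ← map_sub, hV.compl.norm, ← dist_eq_norm]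

/-- the tensor product of two representations -/
noncomputable def tensRep (V : G →* (E →L[ℂ] E)) (σ : G →* (L →L[ℂ] L)) :
    G →* (E ⊗[ℂ] L →L[ℂ] E ⊗[ℂ] L) where
  toFun s := TensorProduct.mapL (V s) (σ s)
  map_one' := by
    rw [V.map_one, σ.map_one]
    exact TensorProduct.mapL_id_id
  map_mul' s t := by
    refine ContinuousLinearMap.ext fun x => ?_
    induction x using TensorProduct.induction_on with
    | zero => simp
    | tmul a b =>
      rw [mul_apply_eq_comp, TensorProduct.mapL_tmul, TensorProduct.mapL_tmul,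
        TensorProduct.mapL_tmul, rep_rep, rep_rep]
    | add x y hx hy => rw [map_add, map_add, hx, hy]

theorem tensRep_tmul (V : G →* (E →L[ℂ] E)) (σ : G →* (L →L[ℂ] L)) (s : G) (a : E) (b : L) :
    tensRep V σ s (a ⊗ₜ b) = V s a ⊗ₜ σ s b := TensorProduct.mapL_tmul _ _ _ _

theorem IsUnitaryRep.tens {V : G →* (E →L[ℂ] E)} {σ : G →* (L →L[ℂ] L)} (hV : IsUnitaryRep V)
    (hσ : IsUnitaryRep σ) : IsUnitaryRep (tensRep V σ) := by
  intro s x y
  induction x using TensorProduct.induction_on with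
  | zero => simp
  | tmul a b =>
    induction y using TensorProduct.induction_on with
    | zero => simp
    | tmul c d =>
      rw [tensRep_tmul, tensRep_tmul, TensorProduct.inner_tmul, TensorProduct.inner_tmul, hV, hσ]
    | add x y hx hy => rw [map_add, inner_add_right, inner_add_right, hx, hy]
  | add x z hx hz => rw [map_add, inner_add_left, inner_add_left, hx, hz]

theorem continuous_tensRep [TopologicalSpace G] {V : G →* (E →L[ℂ] E)} {σ : G →* (L →L[ℂ] L)}
    (hV : ∀ a, Continuous fun s => V s a) (hσ : ∀ b, Continuous fun s => σ s b) (x : E ⊗[ℂ] L) :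
    Continuous fun s => tensRep V σ s x := by
  induction x using TensorProduct.induction_on with
  | zero => simpa using continuous_const
  | tmul a b =>
    simp only [tensRep_tmul]
    exact TensorProduct.continuous_tmul.comp ((hV a).prodMk (hσ b))
  | add x y hx hy =>
    simp only [map_add]
    exact hx.add hy

end Reps

variable {G : Type u} [Group G] [TopologicalSpace G] [IsTopologicalGroup G]
  [LocallyCompactSpace G] [T2Space G] [MeasurableSpace G] [BorelSpace G] {μ : Measure G}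
  [μ.IsHaarMeasure]

variable (μ) in
omit [IsTopologicalGroup G] in
theorem exists_bump {W : Set G} (hW : W ∈ 𝓝 (1 : G)) :
    ∃ f : C_c(G, ℂ), (∀ s, (starRingEnd ℂ) (f s) = f s) ∧ ∫ s, ‖f s‖ ∂μ = 1 ∧ ∫ s, f s ∂μ = 1 ∧
      ∀ s, s ∉ W → f s = 0 := by
  obtain ⟨g, hg1, hg2, hg3, hg4⟩ := exists_continuousMap_one_of_isCompact_subset_isOpen
    (isCompact_singleton (x := (1 : G))) isOpen_interior
    (Set.singleton_subset_iff.2 (mem_interior_iff_mem_nhds.2 hW))
  have hpos : 0 < ∫ s, g s ∂μ :=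
    g.continuous.integral_pos_of_hasCompactSupport_nonneg_nonzero hg2 (fun s => (hg4 s).1)
      (x := 1) (by rw [hg1 rfl]; simp)
  set c := ∫ s, g s ∂μ with hc
  have h1 : ∫ s, c⁻¹ * g s ∂μ = 1 := by rw [integral_const_mul, inv_mul_cancel₀ hpos.ne']
  refine ⟨⟨⟨fun s => ((c⁻¹ * g s : ℝ) : ℂ), by fun_prop⟩,
    HasCompactSupport.comp_left (g := fun r : ℝ => ((c⁻¹ * r : ℝ) : ℂ)) hg2 (by simp)⟩,
    fun s => Complex.conj_ofReal _, ?_, ?_, fun s hs => ?_⟩
  · rw [← h1]
    refine integral_congr_ae (Eventually.of_forall fun s => ?_)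
    change ‖((c⁻¹ * g s : ℝ) : ℂ)‖ = _
    rw [Complex.norm_real, Real.norm_of_nonneg (mul_nonneg (inv_pos.2 hpos).le (hg4 s).1)]
  · change ∫ s, ((c⁻¹ * g s : ℝ) : ℂ) ∂μ = 1
    rw [integral_complex_ofReal, h1, Complex.ofReal_one]
  · change ((c⁻¹ * g s : ℝ) : ℂ) = 0
    rw [image_eq_zero_of_notMem_tsupport fun h => hs (interior_subset (hg3 h))]
    simp

variable [μ.InnerRegularCompactLTTop]

variable (μ) in
theorem exists_mem_closure_orbit {K : Type w} [NormedAddCommGroup K] [InnerProductSpace ℂ K]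
    [CompleteSpace K] {π : G →* (K →L[ℂ] K)} (hπ : IsUnitaryRep π)
    (hc : ∀ x, Continuous fun s => π s x)
    (hD : ∀ w : K, (∀ Γ, (HasCompactSupport fun s => ⟪Γ, π s Γ⟫_ℂ) → ⟪Γ, w⟫_ℂ = 0) → w = 0)
    (Ξ : K) : ∃ ξ0, Ξ ∈ closure (orbitInt (lam μ) π ξ0) := by
  have hW : ∀ k : ℕ, {s : G | ‖π s⁻¹ Ξ - Ξ‖ < 1 / ((k : ℝ) + 1)} ∈ 𝓝 (1 : G) := fun k => by
    refine (isOpen_lt (((hc Ξ).comp continuous_inv).sub continuous_const).norm
      continuous_const).mem_nhds ?_
    simpa using Nat.cast_add_one_pos k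
  choose f hf1 hf2 hf3 hf4 using fun k => exists_bump μ (hW k)
  let c : ℕ → ℝ := fun k => (1 / 2) ^ k / (‖toL2 μ (f k)‖ + 1)
  have hc0 : ∀ k, 0 < c k := fun k => by positivity
  have hc1 : ∀ k, c k ≤ (1 / 2) ^ k := fun k =>
    div_le_self (by positivity) (by linarith [norm_nonneg (toL2 μ (f k))])
  have hc2 : ∀ k, c k * ‖toL2 μ (f k)‖ ≤ (1 / 2) ^ k := fun k => by
    rw [div_mul_eq_mul_div, div_le_iff₀ (by positivity)]
    nlinarith [pow_pos (show (0 : ℝ) < 1 / 2 by norm_num) k]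
  let z : ℕ → Lp ℂ 2 μ := fun k => (c k : ℂ) • smear μ (lam μ) (f k) (fun s => s⁻¹) (toL2 μ (f k))
  have hz : Summable z := by
    refine Summable.of_norm_bounded summable_geometric_two fun k => ?_
    rw [norm_smul, Complex.norm_real, Real.norm_of_nonneg (hc0 k).le]
    refine le_trans (mul_le_mul_of_nonneg_left ?_ (hc0 k).le) (hc2 k)
    simpa [hf2] using norm_smear_le (μ := μ) (isUnitaryRep_lam μ) (f k) (fun s => s⁻¹)
      (toL2 μ (f k))
  refine ⟨∑' k, z k, ?_⟩
  let S : Submodule ℂ K :=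
    { carrier := orbitInt (lam μ) π (∑' k, z k)
      add_mem' := by
        rintro _ _ ⟨Y, hY, rfl⟩ ⟨Y', hY', rfl⟩
        exact ⟨Y + Y', fun s x => by rw [add_apply, add_apply, hY, hY', map_add], rfl⟩
      zero_mem' := ⟨0, fun s x => by simp, rfl⟩
      smul_mem' := by
        rintro c _ ⟨Y, hY, rfl⟩
        exact ⟨c • Y, fun s x => by rw [smul_apply, smul_apply, hY, map_smul], rfl⟩ }
  change Ξ ∈ S.topologicalClosure
  rw [← Submodule.orthogonal_orthogonal_eq_closure, Submodule.mem_orthogonal']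
  intro y hy
  let w : ℕ → K := fun k => (c k : ℂ) • smear μ π (f k) (fun s => s⁻¹) (smear μ π (f k) id y)
  have hw : Summable w := by
    refine Summable.of_norm_bounded (summable_geometric_two.mul_right ‖y‖) fun k => ?_
    rw [norm_smul, Complex.norm_real, Real.norm_of_nonneg (hc0 k).le]
    refine mul_le_mul (hc1 k) ?_ (norm_nonneg _) (by positivity)
    have h1 := norm_smear_le (μ := μ) hπ (f k) (fun s => s⁻¹) (smear μ π (f k) id y)
    have h2 := norm_smear_le (μ := μ) hπ (f k) id y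
    rw [hf2, one_mul] at h1 h2
    exact h1.trans h2
  have hw0 : ∑' k, w k = 0 := by
    refine hD _ fun Γ hΓ => ?_
    obtain ⟨R, hR1, hR2⟩ := exists_int (μ := μ) hπ hc hΓ
    have h1 : ⟪y, R (∑' k, z k)⟫_ℂ = 0 :=
      (Submodule.mem_orthogonal' _ _).1 hy _ ⟨R, hR1, rfl⟩
    have h2 := (hz.hasSum.mapL ((innerSL ℂ y) ∘L R)).star
    have h3 := hw.hasSum.mapL (innerSL ℂ Γ)
    simp only [ContinuousLinearMap.comp_apply, innerSL_apply_apply] at h2 h3
    rw [h1, star_zero] at h2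
    have e : ∀ k, star ⟪y, R (z k)⟫_ℂ = ⟪Γ, w k⟫_ℂ := fun k => by
      change (starRingEnd ℂ) ⟪y, R ((c k : ℂ) • _)⟫_ℂ = ⟪Γ, (c k : ℂ) • _⟫_ℂ
      rw [inner_conj_symm, map_smul, hR1.smear (continuous_lam μ) _ continuous_inv, hR2,
        inner_smul_left, inner_smul_right, Complex.conj_ofReal, smear_adj hπ hc _ (hf1 k),
        ← inner_conj_symm Γ, smear_adj hπ hc _ (hf1 k), inner_conj_symm]
    simp only [e] at h2
    exact h3.unique h2
  have hy0 : ∀ k, smear μ π (f k) id y = 0 := by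
    have h1 := hw.hasSum.mapL (Complex.reCLM ∘L ((innerSL ℂ y).restrictScalars ℝ))
    rw [hw0, map_zero] at h1
    have h2 : ∀ k, (Complex.reCLM ∘L ((innerSL ℂ y).restrictScalars ℝ)) (w k) =
        c k * ‖smear μ π (f k) id y‖ ^ 2 := fun k => by
      change (⟪y, (c k : ℂ) • _⟫_ℂ).re = _
      rw [inner_smul_right, ← inner_conj_symm, smear_adj hπ hc _ (hf1 k), inner_conj_symm,
        inner_self_eq_norm_sq_to_K, Complex.re_ofReal_mul]
      norm_cast
    simp only [h2] at h1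
    rw [hasSum_zero_iff_of_nonneg fun k => by have := hc0 k; positivity] at h1
    intro k
    have h3 : c k * ‖smear μ π (f k) id y‖ ^ 2 = 0 := congrFun h1 k
    simpa [(hc0 k).ne'] using h3
  have hb : ∀ k : ℕ, ‖⟪Ξ, y⟫_ℂ‖ ≤ 1 / ((k : ℝ) + 1) * ‖y‖ := by
    intro k
    have hi : Integrable (f k) μ :=
      (f k).continuous.integrable_of_hasCompactSupport (f k).hasCompactSupport
    have hi2 : Integrable (fun s => f k s * ⟪Ξ, π (id s) y⟫_ℂ) μ :=
      ((f k).continuous.mul (continuous_const.inner (hc y))).integrable_of_hasCompactSupport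
        (f k).hasCompactSupport.mul_right
    have h1 : ⟪Ξ, y⟫_ℂ = ∫ s, (f k s * ⟪Ξ, y⟫_ℂ - f k s * ⟪Ξ, π (id s) y⟫_ℂ) ∂μ := by
      rw [integral_sub (hi.mul_const _) hi2, ← inner_smear hc _ continuous_id, hy0,
        integral_mul_const, hf3]
      simp
    have h2 : 1 / ((k : ℝ) + 1) * ‖y‖ = ∫ s, ‖f k s‖ * (1 / ((k : ℝ) + 1) * ‖y‖) ∂μ := by
      rw [integral_mul_const, hf2, one_mul]
    rw [h1, h2]
    refine norm_integral_le_of_norm_le (hi.norm.mul_const _) (Eventually.of_forall fun s => ?_)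
    by_cases hs : ‖π s⁻¹ Ξ - Ξ‖ < 1 / ((k : ℝ) + 1)
    · rw [← mul_sub, norm_mul, id, ← inv_inv s, ← hπ.inner_left, inv_inv, ← inner_sub_left]
      refine mul_le_mul_of_nonneg_left ((norm_inner_le_norm _ _).trans ?_) (norm_nonneg _)
      rw [norm_sub_rev]
      exact mul_le_mul_of_nonneg_right hs.le (norm_nonneg _)
    · simp [hf4 k s hs]
  have hlim := (tendsto_one_div_add_atTop_nhds_zero_nat (𝕜 := ℝ)).mul_const ‖y‖
  rw [zero_mul] at hlim
  exact norm_le_zero_iff.1 (ge_of_tendsto' hlim hb)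

omit [LocallyCompactSpace G] [T2Space G] [μ.InnerRegularCompactLTTop] in
theorem hasCompactSupport_coeff (g : C_c(G, ℂ)) :
    HasCompactSupport fun s => ⟪toL2 μ g, lam μ s (toL2 μ g)⟫_ℂ := by
  refine HasCompactSupport.intro ((g.hasCompactSupport.isCompact.prod
    g.hasCompactSupport.isCompact).image (f := fun p : G × G => p.1 * p.2⁻¹)
    (continuous_fst.mul continuous_snd.inv)) fun s hs => ?_
  rw [L2.inner_def]
  refine integral_eq_zero_of_ae ?_
  filter_upwards [toL2_ae (μ := μ) g, lamOp_ae μ s (toL2 μ g),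
    (measurePreserving_mul_left μ s⁻¹).quasiMeasurePreserving.ae_eq_comp (toL2_ae (μ := μ) g)]
    with t h1 h2 h3
  change ⟪toL2 μ g t, lamOp μ s (toL2 μ g) t⟫_ℂ = 0
  rw [h1, h2]
  change toL2 μ g (s⁻¹ * t) = g (s⁻¹ * t) at h3
  rw [h3]
  by_cases ht : t ∈ tsupport g
  · have : s⁻¹ * t ∉ tsupport g := fun h => hs ⟨(t, s⁻¹ * t), ⟨ht, h⟩, by simp⟩
    rw [image_eq_zero_of_notMem_tsupport this, inner_zero_right]
  · rw [image_eq_zero_of_notMem_tsupport ht, inner_zero_left]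

theorem exists_coeff_tens {L : Type w} [NormedAddCommGroup L] [InnerProductSpace ℂ L]
    {σ : G →* (L →L[ℂ] L)} (hσ : IsUnitaryRep σ) (hcσ : ∀ b, Continuous fun s => σ s b)
    (Ξ Θ : Lp ℂ 2 μ ⊗[ℂ] L) {ε : ℝ} (hε : 0 < ε) :
    ∃ ξ η : Lp ℂ 2 μ, (∀ s, ⟪Θ, tensRep (lam μ) σ s Ξ⟫_ℂ = coeff μ ξ η s) ∧
      ‖ξ‖ * ‖η‖ ≤ ‖Ξ‖ * ‖Θ‖ + ε := by
  have hU := isUnitaryRep_lam μ
  have hT := hU.tens hσ
  obtain ⟨ξ0, h0⟩ := exists_mem_closure_orbit μ hT.compl
    (continuous_complRep hT (continuous_tensRep (continuous_lam μ) hcσ)) (fun w hw => by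
      have h1 : ∀ (l : L) (h : Lp ℂ 2 μ),
          ⟪((h ⊗ₜ l : Lp ℂ 2 μ ⊗[ℂ] L) : Completion (Lp ℂ 2 μ ⊗[ℂ] L)), w⟫_ℂ = 0 := by
        intro l h
        refine denseRange_toL2.induction_on h (isClosed_eq (Continuous.inner
          ((Completion.continuous_coe _).comp (TensorProduct.continuous_tmul.comp
            (continuous_id.prodMk continuous_const))) continuous_const) continuous_const)
          fun g => hw _ ?_
        simp only [complRep_coe, Completion.inner_coe, tensRep_tmul, TensorProduct.inner_tmul]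
        exact (hasCompactSupport_coeff g).mul_right
      have h2 : ∀ x : Lp ℂ 2 μ ⊗[ℂ] L, ⟪(x : Completion (Lp ℂ 2 μ ⊗[ℂ] L)), w⟫_ℂ = 0 := by
        intro x
        induction x using TensorProduct.induction_on with
        | zero => rw [Completion.coe_zero, inner_zero_left]
        | tmul a b => exact h1 b a
        | add x y hx hy => rw [Completion.coe_add, inner_add_left, hx, hy, add_zero]
      have h3 : ∀ x : Completion (Lp ℂ 2 μ ⊗[ℂ] L), ⟪x, w⟫_ℂ = 0 := fun x =>
        Completion.induction_on x (isClosed_eq (by fun_prop) continuous_const) h2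
      exact inner_self_eq_zero.1 (h3 w)) (Ξ : Completion (Lp ℂ 2 μ ⊗[ℂ] L))
  set C : ℝ := (18 + 2 * ‖Ξ‖) * ‖Θ‖ + 1 with hC
  have hC0 : 0 < C := by positivity
  have ha : 0 < min 1 (ε / C) := lt_min one_pos (by positivity)
  obtain ⟨ξ, η, h1, h2, h3⟩ := exists_coeff_of_closure hU hT.compl h0
    (Θ : Completion (Lp ℂ 2 μ ⊗[ℂ] L)) ha (min_le_left _ _)
  refine ⟨ξ, η, fun s => ?_, ?_⟩
  · rw [coeff_eq_inner, ← h1, complRep_coe, Completion.inner_coe]
  · rw [Completion.norm_coe] at h2 h3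
    set a := min 1 (ε / C)
    have ha1 : a ≤ 1 := min_le_left _ _
    have ha2 : a * C ≤ ε := (le_div_iff₀ hC0).1 (min_le_right _ _)
    refine (mul_le_mul h2 h3 (norm_nonneg _) (by positivity)).trans ?_
    have h4 : 0 ≤ a * ‖Θ‖ * (1 - a) := mul_nonneg (by positivity) (by linarith)
    nlinarith

omit [LocallyCompactSpace G] [T2Space G] [μ.InnerRegularCompactLTTop] in
theorem exists_balanced (ξ η : Lp ℂ 2 μ) : ∃ ξ' η' : Lp ℂ 2 μ, coeff μ ξ' η' = coeff μ ξ η ∧
    ‖ξ'‖ ^ 2 = ‖ξ‖ * ‖η‖ ∧ ‖η'‖ ^ 2 = ‖ξ‖ * ‖η‖ := by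
  rcases eq_or_ne ξ 0 with rfl | hξ
  · exact ⟨0, 0, funext fun s => by simp [coeff_eq_inner], by simp, by simp⟩
  rcases eq_or_ne η 0 with rfl | hη
  · exact ⟨0, 0, funext fun s => by simp [coeff_eq_inner], by simp, by simp⟩
  have h1 := norm_pos_iff.2 hξ
  have h2 := norm_pos_iff.2 hη
  set r := √(‖η‖ / ‖ξ‖) with hr
  have hr0 : 0 < r := Real.sqrt_pos.2 (by positivity)
  have hr2 : r ^ 2 = ‖η‖ / ‖ξ‖ := Real.sq_sqrt (by positivity)
  refine ⟨(r : ℂ) • ξ, ((r⁻¹ : ℝ) : ℂ) • η, funext fun s => ?_, ?_, ?_⟩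
  · rw [coeff_eq_inner, coeff_eq_inner, map_smul, inner_smul_left, inner_smul_right,
      Complex.conj_ofReal, ← mul_assoc, ← Complex.ofReal_mul, inv_mul_cancel₀ hr0.ne']
    simp
  · rw [norm_smul, Complex.norm_real, Real.norm_of_nonneg hr0.le, mul_pow, hr2]
    field_simp
  · rw [norm_smul, Complex.norm_real, Real.norm_of_nonneg (inv_pos.2 hr0).le, mul_pow, inv_pow,
      hr2]
    field_simp

theorem exists_coeff_add (ξ η ξ' η' : Lp ℂ 2 μ) {ε : ℝ} (hε : 0 < ε) :
    ∃ α β : Lp ℂ 2 μ, coeff μ ξ η + coeff μ ξ' η' = coeff μ α β ∧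
      ‖α‖ * ‖β‖ ≤ ‖ξ‖ * ‖η‖ + ‖ξ'‖ * ‖η'‖ + ε := by
  obtain ⟨x, y, h1, h2, h3⟩ := exists_balanced ξ η
  obtain ⟨x', y', h1', h2', h3'⟩ := exists_balanced ξ' η'
  let e : Fin 2 → EuclideanSpace ℂ (Fin 2) := EuclideanSpace.basisFun (Fin 2) ℂ
  have he : ∀ i j, ⟪e i, e j⟫_ℂ = if i = j then 1 else 0 :=
    orthonormal_iff_ite.1 (EuclideanSpace.basisFun (Fin 2) ℂ).orthonormal
  have hn : ∀ a b : Lp ℂ 2 μ, ‖a ⊗ₜ[ℂ] e 0 + b ⊗ₜ[ℂ] e 1‖ ^ 2 = ‖a‖ ^ 2 + ‖b‖ ^ 2 := by
    intro a b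
    have h0 : ∀ i, ‖e i‖ = 1 := (EuclideanSpace.basisFun (Fin 2) ℂ).orthonormal.1
    rw [norm_add_sq (𝕜 := ℂ), TensorProduct.inner_tmul, he, TensorProduct.norm_tmul,
      TensorProduct.norm_tmul, h0, h0]
    simp
  obtain ⟨α, β, h4, h5⟩ := exists_coeff_tens (μ := μ) (σ := 1) (fun _ _ _ => rfl)
    (fun _ => continuous_const) (x ⊗ₜ e 0 + x' ⊗ₜ e 1) (y ⊗ₜ e 0 + y' ⊗ₜ e 1) hε
  refine ⟨α, β, funext fun s => ?_, h5.trans (add_le_add_left (le_of_eq ?_) _)⟩
  · rw [← h4, ← h1, ← h1', Pi.add_apply, coeff_eq_inner, coeff_eq_inner, map_add, tensRep_tmul,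
      tensRep_tmul]
    simp only [inner_add_left, inner_add_right, TensorProduct.inner_tmul, MonoidHom.one_apply,
      one_apply_eq_self, he]
    simp
  · refine (pow_left_inj₀ (by positivity) (by positivity) two_ne_zero).1 ?_
    rw [mul_pow, hn, hn, h2, h3, h2', h3', sq]

theorem exists_coeff_mul (ξ η ξ' η' : Lp ℂ 2 μ) {ε : ℝ} (hε : 0 < ε) :
    ∃ α β : Lp ℂ 2 μ, coeff μ ξ η * coeff μ ξ' η' = coeff μ α β ∧
      ‖α‖ * ‖β‖ ≤ ‖ξ‖ * ‖η‖ * (‖ξ'‖ * ‖η'‖) + ε := by
  obtain ⟨α, β, h4, h5⟩ := exists_coeff_tens (μ := μ) (isUnitaryRep_lam μ) (continuous_lam μ)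
    (ξ ⊗ₜ ξ') (η ⊗ₜ η') hε
  refine ⟨α, β, funext fun s => ?_, h5.trans (le_of_eq ?_)⟩
  · rw [← h4, Pi.mul_apply, coeff_eq_inner, coeff_eq_inner, tensRep_tmul, TensorProduct.inner_tmul]
  · rw [TensorProduct.norm_tmul, TensorProduct.norm_tmul]
    ring

end Pool.Agent.Work.MP_129c4a_an
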