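import Mathlib.Analysis.InnerProductSpace.Basic
import Mathlib.Analysis.Normed.Operator.Basic
import Mathlib.Analysis.Complex.Basic
import Mathlib.Analysis.InnerProductSpace.Continuous
import Mathlib.Data.Fintype.Basic

/-!
The gliding hump construction in the algebra spanned by a unitary representation.
-/

namespace Pool.Agent.Work.MP_129c4a_an

open scoped InnerProductSpace

universe u v

variable {G : Type u} [Group G] {H : Type v} [NormedAddCommGroup H] [InnerProductSpace ℂ H]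

/-- `U` acts by isometries -/
def IsUnitaryRep (U : G →* (H →L[ℂ] H)) : Prop := ∀ g x y, ⟪U g x, U g y⟫_ℂ = ⟪x, y⟫_ℂ

/-- the span of the operators of the representation -/
def spanRep (U : G →* (H →L[ℂ] H)) : Submodule ℂ (H →L[ℂ] H) := Submodule.span ℂ (Set.range U)

theorem rep_mem (U : G →* (H →L[ℂ] H)) (g : G) : U g ∈ spanRep U :=
  Submodule.subset_span ⟨g, rfl⟩

theorem one_mem_spanRep (U : G →* (H →L[ℂ] H)) : (1 : H →L[ℂ] H) ∈ spanRep U := by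
  rw [← U.map_one]
  exact rep_mem U 1

theorem mul_mem_spanRep (U : G →* (H →L[ℂ] H)) {S T : H →L[ℂ] H} (hS : S ∈ spanRep U)
    (hT : T ∈ spanRep U) : S * T ∈ spanRep U := by
  induction hS using Submodule.span_induction with
  | mem x hx =>
    obtain ⟨a, rfl⟩ := hx
    induction hT using Submodule.span_induction with
    | mem y hy =>
      obtain ⟨b, rfl⟩ := hy
      rw [← U.map_mul]
      exact rep_mem U _
    | zero => simp
    | add y z _ _ hy hz => rw [mul_add]; exact Submodule.add_mem _ hy hz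
    | smul c y _ hy => rw [mul_smul_comm]; exact Submodule.smul_mem _ c hy
  | zero => simp
  | add y z _ _ hy hz => rw [add_mul]; exact Submodule.add_mem _ hy hz
  | smul c y _ hy => rw [smul_mul_assoc]; exact Submodule.smul_mem _ c hy

theorem pow_mem_spanRep (U : G →* (H →L[ℂ] H)) {S : H →L[ℂ] H} (hS : S ∈ spanRep U) (n : ℕ) :
    S ^ n ∈ spanRep U := by
  induction n with
  | zero => rw [pow_zero]; exact one_mem_spanRep U
  | succ n ih => rw [pow_succ]; exact mul_mem_spanRep U ih hS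

theorem IsUnitaryRep.norm {U : G →* (H →L[ℂ] H)} (hU : IsUnitaryRep U) (g : G) (x : H) :
    ‖U g x‖ = ‖x‖ := by
  have := hU g x x
  rw [inner_self_eq_norm_sq_to_K, inner_self_eq_norm_sq_to_K] at this
  have h2 : ‖U g x‖ ^ 2 = ‖x‖ ^ 2 := by exact_mod_cast this
  exact (pow_left_inj₀ (norm_nonneg _) (norm_nonneg _) two_ne_zero).1 h2

theorem rep_apply_inv (U : G →* (H →L[ℂ] H)) (g : G) (x : H) : U g (U g⁻¹ x) = x := by
  rw [← mul_apply_eq_comp, ← U.map_mul, mul_inv_cancel, U.map_one]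
  rfl

theorem rep_inv_apply (U : G →* (H →L[ℂ] H)) (g : G) (x : H) : U g⁻¹ (U g x) = x := by
  simpa using rep_apply_inv U g⁻¹ x

theorem rep_rep (U : G →* (H →L[ℂ] H)) (a b : G) (x : H) : U a (U b x) = U (a * b) x := by
  rw [U.map_mul]
  rfl

theorem IsUnitaryRep.inner_left {U : G →* (H →L[ℂ] H)} (hU : IsUnitaryRep U) (g : G) (x y : H) :
    ⟪U g x, y⟫_ℂ = ⟪x, U g⁻¹ y⟫_ℂ := by
  conv_lhs => rw [← rep_apply_inv U g y]
  exact hU g _ _

/-- a symmetric operator between `0` and `1` -/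
def IsEffect (B : H →L[ℂ] H) : Prop :=
  (∀ x y, ⟪B x, y⟫_ℂ = ⟪x, B y⟫_ℂ) ∧ ∀ x, ‖B x‖ ^ 2 ≤ (⟪B x, x⟫_ℂ).re

theorem IsEffect.sum_sq {B : H →L[ℂ] H} (hB : IsEffect B) (x : H) :
    ‖x - B x‖ ^ 2 + ‖B x‖ ^ 2 ≤ ‖x‖ ^ 2 := by
  have h1 := hB.2 x
  have h2 := norm_sub_sq (𝕜 := ℂ) x (B x)
  have h3 : RCLike.re ⟪x, B x⟫_ℂ = (⟪B x, x⟫_ℂ).re := by
    rw [hB.1]
    rfl
  rw [h3] at h2
  linarith

theorem IsEffect.norm_le {B : H →L[ℂ] H} (hB : IsEffect B) (x : H) : ‖B x‖ ≤ ‖x‖ := by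
  have := hB.sum_sq x
  exact (pow_le_pow_iff_left₀ (norm_nonneg _) (norm_nonneg _) two_ne_zero).1
    (by nlinarith [sq_nonneg ‖x - B x‖])

theorem IsEffect.norm_sub_le {B : H →L[ℂ] H} (hB : IsEffect B) (x : H) : ‖x - B x‖ ≤ ‖x‖ := by
  have := hB.sum_sq x
  exact (pow_le_pow_iff_left₀ (norm_nonneg _) (norm_nonneg _) two_ne_zero).1
    (by nlinarith [sq_nonneg ‖B x‖])

theorem IsEffect.glue {B Y : H →L[ℂ] H} (hB : IsEffect B) (hY : ∀ x, ‖Y x‖ ≤ ‖x‖) (x : H) :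
    ‖((1 - B) * Y * (1 - B) + B * B) x‖ ≤ ‖x‖ := by
  set y := ((1 - B) * Y * (1 - B) + B * B) x with hy
  have hy' : y = (Y (x - B x) - B (Y (x - B x))) + B (B x) := rfl
  have h1 : ⟪y, y⟫_ℂ = ⟪Y (x - B x), y - B y⟫_ℂ + ⟪B x, B y⟫_ℂ := by
    conv_lhs => enter [2]; rw [hy']
    rw [inner_add_left, inner_sub_left, inner_sub_right, hB.1, hB.1 (B x)]
  have h2 : ‖y‖ ^ 2 ≤ ‖x - B x‖ * ‖y - B y‖ + ‖B x‖ * ‖B y‖ := by
    have h3 : ‖y‖ ^ 2 = ‖⟪y, y⟫_ℂ‖ := by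
      rw [inner_self_eq_norm_sq_to_K]
      simp
    rw [h3, h1]
    refine (norm_add_le _ _).trans (add_le_add ?_ (norm_inner_le_norm _ _))
    exact (norm_inner_le_norm _ _).trans (mul_le_mul_of_nonneg_right (hY _) (norm_nonneg _))
  have h4 := hB.sum_sq x
  have h5 := hB.sum_sq y
  by_contra hcon
  push Not at hcon
  have hx0 := norm_nonneg x
  have h6 : ‖x‖ ^ 2 < ‖y‖ ^ 2 := by nlinarith
  nlinarith [sq_nonneg (‖x - B x‖ - ‖y - B y‖), sq_nonneg (‖B x‖ - ‖B y‖)]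

theorem isEffect_of_pair {S S' : H →L[ℂ] H} (h : ∀ x y, ⟪S x, y⟫_ℂ = ⟪x, S' y⟫_ℂ)
    (hS' : ∀ x, ‖S' x‖ ≤ ‖x‖) : IsEffect (S' * S) := by
  have h' : ∀ x y, ⟪S' x, y⟫_ℂ = ⟪x, S y⟫_ℂ := fun x y => by
    rw [← inner_conj_symm, ← h, inner_conj_symm]
  refine ⟨fun x y => ?_, fun x => ?_⟩
  · rw [mul_apply_eq_comp, mul_apply_eq_comp, h', h]
  · rw [mul_apply_eq_comp, h', inner_self_eq_norm_sq_to_K]
    have : ((‖S x‖ : ℂ) ^ 2).re = ‖S x‖ ^ 2 := by norm_cast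
    refine le_trans (pow_le_pow_left₀ (norm_nonneg _) (hS' _) 2) (le_of_eq ?_)
    exact this.symm

theorem IsEffect.one_sub {B : H →L[ℂ] H} (hB : IsEffect B) : IsEffect (1 - B) := by
  refine ⟨fun x y => ?_, fun x => ?_⟩
  · change ⟪x - B x, y⟫_ℂ = ⟪x, y - B y⟫_ℂ
    rw [inner_sub_left, inner_sub_right, hB.1]
  · change ‖x - B x‖ ^ 2 ≤ (⟪x - B x, x⟫_ℂ).re
    have h1 := hB.2 x
    have h2 := norm_sub_sq (𝕜 := ℂ) x (B x)
    have h3 : RCLike.re ⟪x, B x⟫_ℂ = (⟪B x, x⟫_ℂ).re := by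
      rw [hB.1]
      rfl
    rw [h3] at h2
    rw [inner_sub_left, Complex.sub_re, inner_self_eq_norm_sq_to_K]
    have : ((‖x‖ : ℂ) ^ 2).re = ‖x‖ ^ 2 := by norm_cast
    refine le_trans ?_ (le_of_eq (congrArg (· - (⟪B x, x⟫_ℂ).re) this.symm))
    linarith

/-- one term of the gliding hump sequence -/
structure Datum (G : Type u) (H : Type v) [NormedAddCommGroup H] [InnerProductSpace ℂ H] where
  ξ : H
  g : G
  B : H →L[ℂ] H
  e : ℝ

def Datum.Good (U : G →* (H →L[ℂ] H)) (x : Datum G H) : Prop :=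
  ‖x.ξ‖ = 1 ∧ x.B ∈ spanRep U ∧ IsEffect x.B ∧ ‖x.ξ - x.B x.ξ‖ ≤ 1 / 12 ∧ 0 < x.e ∧ x.e ≤ 1 / 12

def Datum.Before (U : G →* (H →L[ℂ] H)) (x y : Datum G H) : Prop :=
  y.e ≤ x.e / 2 ∧ ‖y.B x.ξ‖ ≤ y.e ∧ ‖y.B (U y.g⁻¹ (U x.g x.ξ))‖ ≤ y.e ∧
    ∀ s, ⟪U x.g x.ξ, U s x.ξ⟫_ℂ * ⟪U y.g y.ξ, U s y.ξ⟫_ℂ = 0

theorem exists_glued {U : G →* (H →L[ℂ] H)} (hU : IsUnitaryRep U) (x : ℕ → Datum G H)
    (hx : ∀ n, (x n).Good U) (hxx : ∀ m n, m < n → (x m).Before U (x n)) :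
    ∃ Q : ℕ → (H →L[ℂ] H), (∀ N, Q N ∈ spanRep U) ∧ (∀ N y, ‖Q N y‖ ≤ ‖y‖) ∧
      ∀ m N, m < N → ‖Q N (x m).ξ - U (x m).g (x m).ξ‖ ≤ 1 / 2 := by
  let Q : ℕ → (H →L[ℂ] H) := fun N => Nat.rec 0 (fun k Qk =>
    U (x k).g * ((1 - (x k).B) * (U (x k).g⁻¹ * Qk) * (1 - (x k).B) + (x k).B * (x k).B)) N
  have hQs : ∀ k, Q (k + 1) = U (x k).g * ((1 - (x k).B) * (U (x k).g⁻¹ * Q k) * (1 - (x k).B) +
    (x k).B * (x k).B) := fun k => rfl
  have hmem : ∀ N, Q N ∈ spanRep U := by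
    intro N
    induction N with
    | zero => exact Submodule.zero_mem _
    | succ k ih =>
      rw [hQs]
      have h1 := Submodule.sub_mem _ (one_mem_spanRep U) (hx k).2.1
      exact mul_mem_spanRep U (rep_mem U _) (Submodule.add_mem _ (mul_mem_spanRep U
        (mul_mem_spanRep U h1 (mul_mem_spanRep U (rep_mem U _) ih)) h1)
        (mul_mem_spanRep U (hx k).2.1 (hx k).2.1))
  have hnorm : ∀ N y, ‖Q N y‖ ≤ ‖y‖ := by
    intro N
    induction N with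
    | zero => intro y; change ‖(0 : H)‖ ≤ _; simp
    | succ k ih =>
      intro y
      rw [hQs, mul_apply_eq_comp, hU.norm]
      refine (hx k).2.2.1.glue (fun z => ?_) y
      rw [mul_apply_eq_comp, hU.norm]
      exact ih z
  refine ⟨Q, hmem, hnorm, ?_⟩
  have key : ∀ m k, m ≤ k →
      ‖Q (k + 1) (x m).ξ - U (x m).g (x m).ξ‖ ≤ 1 / 4 + 3 * ((x m).e - (x k).e) := by
    intro m k hmk
    induction k, hmk using Nat.le_induction with
    | base =>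
      obtain ⟨-, -, hE, h1, -, -⟩ := hx m
      set B := (x m).B
      set ξ := (x m).ξ
      set g := (x m).g
      have e1 : Q (m + 1) ξ - U g ξ = U g ((U g⁻¹ (Q m (ξ - B ξ)) - B (U g⁻¹ (Q m (ξ - B ξ))))
          - (B (ξ - B ξ) + (ξ - B ξ))) := by
        rw [hQs]
        change U g ((U g⁻¹ (Q m (ξ - B ξ)) - B (U g⁻¹ (Q m (ξ - B ξ)))) + B (B ξ)) - U g ξ = _
        rw [← map_sub, map_sub B ξ]
        congr 1
        abel
      rw [e1, hU.norm]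
      have a1 := hE.norm_sub_le (U g⁻¹ (Q m (ξ - B ξ)))
      rw [hU.norm] at a1
      have a2 := hnorm m (ξ - B ξ)
      have a3 := hE.norm_le (ξ - B ξ)
      have a4 := norm_sub_le (U g⁻¹ (Q m (ξ - B ξ)) - B (U g⁻¹ (Q m (ξ - B ξ))))
        (B (ξ - B ξ) + (ξ - B ξ))
      have a5 := norm_add_le (B (ξ - B ξ)) (ξ - B ξ)
      linarith
    | succ k hmk ih =>
      obtain ⟨-, -, hE, -, -, -⟩ := hx (k + 1)
      obtain ⟨-, h1, h2, -⟩ := hxx m (k + 1) (by omega)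
      have h3 := (hxx k (k + 1) (by omega)).1
      set B := (x (k + 1)).B
      set ξ := (x m).ξ
      set η := U (x m).g ξ
      set g := (x (k + 1)).g
      set P := Q (k + 1)
      have e1 : Q (k + 1 + 1) ξ - η = U g (((U g⁻¹ (P ξ - η) - B (U g⁻¹ (P ξ - η))) -
          (U g⁻¹ (P (B ξ)) - B (U g⁻¹ (P (B ξ))))) + (B (B ξ) - B (U g⁻¹ η))) := by
        rw [hQs]
        change U g ((U g⁻¹ (P (ξ - B ξ)) - B (U g⁻¹ (P (ξ - B ξ)))) + B (B ξ)) - η = _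
        conv_lhs => rw [← rep_apply_inv U g η]
        rw [← map_sub]
        congr 1
        simp only [map_sub]
        abel
      rw [e1, hU.norm]
      have a1 := hE.norm_sub_le (U g⁻¹ (P ξ - η))
      rw [hU.norm] at a1
      have a2 := hE.norm_sub_le (U g⁻¹ (P (B ξ)))
      rw [hU.norm] at a2
      have a3 := hnorm (k + 1) (B ξ)
      have a4 := hE.norm_le (B ξ)
      have a5 := norm_add_le ((U g⁻¹ (P ξ - η) - B (U g⁻¹ (P ξ - η))) -
          (U g⁻¹ (P (B ξ)) - B (U g⁻¹ (P (B ξ))))) (B (B ξ) - B (U g⁻¹ η))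
      have a6 := norm_sub_le (U g⁻¹ (P ξ - η) - B (U g⁻¹ (P ξ - η)))
          (U g⁻¹ (P (B ξ)) - B (U g⁻¹ (P (B ξ))))
      have a7 := norm_sub_le (B (B ξ)) (B (U g⁻¹ η))
      linarith
  intro m N hmN
  obtain ⟨k, rfl⟩ : ∃ k, N = k + 1 := ⟨N - 1, by omega⟩
  have := key m k (by omega)
  have h1 := (hx m).2.2.2.2.2
  have h2 := (hx k).2.2.2.2.1
  linarith

/-- a positive number below `1/12` and below half of the parameters of finitely many data -/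
theorem exists_param (U : G →* (H →L[ℂ] H)) (s : Finset (Datum G H)) (hs : ∀ x ∈ s, x.Good U) :
    ∃ e : ℝ, 0 < e ∧ e ≤ 1 / 12 ∧ ∀ x ∈ s, e ≤ x.e / 2 := by
  classical
  induction s using Finset.induction_on with
  | empty => exact ⟨1 / 12, by norm_num, le_rfl, by simp⟩
  | insert a s _ ih =>
    obtain ⟨e, h1, h2, h3⟩ := ih fun x hx => hs x (Finset.mem_insert_of_mem hx)
    have h4 := (hs a (Finset.mem_insert_self _ _)).2.2.2.2.1
    refine ⟨min e (a.e / 2), lt_min h1 (by linarith), (min_le_left _ _).trans h2, ?_⟩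
    intro x hx
    rcases Finset.mem_insert.1 hx with rfl | hx
    · exact min_le_right _ _
    · exact (min_le_left _ _).trans (h3 x hx)

end Pool.Agent.Work.MP_129c4a_an
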