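import Pool.Agent.Work.MP_129c4a_an.Abstract
import Pool.Agent.Work.MP_129c4a_an.Hilbert
import Mathlib.Analysis.InnerProductSpace.StarOrder
import Mathlib.Analysis.SpecialFunctions.ContinuousFunctionalCalculus.Rpow.Basic
import Mathlib.Analysis.CStarAlgebra.ContinuousFunctionalCalculus.Commute
import Mathlib.Analysis.SpecificLimits.Basic

/-!
A factorization argument: a coefficient of `π` at a vector in the closure of the orbit of a vector
of `U` under the intertwiners is a coefficient of `U`, with control of the norms.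
-/

namespace Pool.Agent.Work.MP_129c4a_an

open Filter Topology
open scoped InnerProductSpace

universe u v w

variable {G : Type u} [Group G] {H : Type v} [NormedAddCommGroup H] [InnerProductSpace ℂ H]
  [CompleteSpace H] {K : Type w} [NormedAddCommGroup K] [InnerProductSpace ℂ K] [CompleteSpace K]

/-- `Y` intertwines `U` and `π` -/
def IsInt (U : G →* (H →L[ℂ] H)) (π : G →* (K →L[ℂ] K)) (Y : H →L[ℂ] K) : Prop :=
  ∀ s x, Y (U s x) = π s (Y x)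

/-- the orbit of a vector under the intertwiners -/
def orbitInt (U : G →* (H →L[ℂ] H)) (π : G →* (K →L[ℂ] K)) (ψ : H) : Set K :=
  {y | ∃ Y : H →L[ℂ] K, IsInt U π Y ∧ Y ψ = y}

variable {U : G →* (H →L[ℂ] H)} {π : G →* (K →L[ℂ] K)}

theorem exists_damp (hU : IsUnitaryRep U) (hπ : IsUnitaryRep π) {Z : H →L[ℂ] K}
    (hZ : IsInt U π Z) {t : ℝ} (ht : 0 < t) :
    ∃ D E : H →L[ℂ] H, IsInt U U E ∧ (∀ x, E (D x) = x) ∧ (∀ x, ‖E x‖ ≤ ‖x‖) ∧
      (∀ x, t * ‖Z (E x)‖ ≤ ‖x‖) ∧ ∀ x, ‖D x - x‖ = t * ‖Z x‖ := by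
  set P : H →L[ℂ] H := (ContinuousLinearMap.adjoint Z) ∘L Z with hP
  have hP0 : 0 ≤ P := (ContinuousLinearMap.nonneg_iff_isPositive _).2
    (ContinuousLinearMap.isPositive_adjoint_comp_self Z)
  have hPc : ∀ s, Commute P (U s) := by
    intro s
    refine ContinuousLinearMap.ext fun x => ext_inner_left ℂ fun y => ?_
    change ⟪y, (ContinuousLinearMap.adjoint Z) (Z (U s x))⟫_ℂ =
      ⟪y, U s ((ContinuousLinearMap.adjoint Z) (Z x))⟫_ℂ
    rw [ContinuousLinearMap.adjoint_inner_right, hZ, ← inv_inv s, ← hU.inner_left,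
      ContinuousLinearMap.adjoint_inner_right, hZ, hπ.inner_left]
  set A := CFC.sqrt P with hA
  have hA0 : A.IsPositive := (ContinuousLinearMap.nonneg_iff_isPositive _).1 (CFC.sqrt_nonneg P)
  have hAA : A * A = P := CFC.sqrt_mul_sqrt_self P hP0
  have hAc : ∀ s, Commute A (U s) := fun s => (hPc s).cfcₙ_nnreal _
  have hAn : ∀ x, ‖A x‖ = ‖Z x‖ := by
    intro x
    have h1 : ⟪A x, A x⟫_ℂ = ⟪Z x, Z x⟫_ℂ := by
      rw [hA0.inner_left_eq_inner_right, ← mul_apply_eq_comp, hAA, hP,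
        ContinuousLinearMap.comp_apply, ContinuousLinearMap.adjoint_inner_right]
    rw [inner_self_eq_norm_sq_to_K, inner_self_eq_norm_sq_to_K] at h1
    have h2 : ‖A x‖ ^ 2 = ‖Z x‖ ^ 2 := by exact_mod_cast h1
    exact (pow_left_inj₀ (norm_nonneg _) (norm_nonneg _) two_ne_zero).1 h2
  set D : H →L[ℂ] H := 1 + (t : ℂ) • A with hD
  have hDx : ∀ x, D x = x + (t : ℂ) • A x := fun x => rfl
  have hre : ∀ x, 0 ≤ RCLike.re ⟪x, (t : ℂ) • A x⟫_ℂ := by
    intro x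
    rw [inner_smul_right]
    have := hA0.re_inner_nonneg_right x
    simp only [RCLike.re_to_complex, Complex.re_ofReal_mul] at this ⊢
    positivity
  have hDn : ∀ x, ‖x‖ ^ 2 + (t * ‖Z x‖) ^ 2 ≤ ‖D x‖ ^ 2 := by
    intro x
    rw [hDx, norm_add_sq (𝕜 := ℂ), norm_smul, Complex.norm_real, Real.norm_of_nonneg ht.le, hAn]
    linarith [hre x]
  have hDu : IsUnit D := by
    refine D.isUnit_of_forall_le_norm_inner_map (c := 1) one_pos fun x => ?_
    rw [← norm_inner_symm, NNReal.coe_one, mul_one]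
    refine le_trans ?_ (RCLike.re_le_norm _)
    rw [hDx, inner_add_right, map_add, inner_self_eq_norm_sq]
    linarith [hre x]
  obtain ⟨E, hE1, hE2⟩ := isUnit_iff_exists.1 hDu
  have hDE : ∀ x, D (E x) = x := fun x => by rw [← mul_apply_eq_comp, hE1]; rfl
  have hED : ∀ x, E (D x) = x := fun x => by rw [← mul_apply_eq_comp, hE2]; rfl
  refine ⟨D, E, fun s x => ?_, hED, fun x => ?_, fun x => ?_, fun x => ?_⟩
  · have h1 : D (U s (E x)) = U s x := by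
      conv_rhs => rw [← hDE x]
      rw [hDx, hDx, map_add, map_smul, ← mul_apply_eq_comp A, (hAc s).eq, mul_apply_eq_comp]
    rw [← h1, hED]
  · have := hDn (E x)
    rw [hDE] at this
    refine (pow_le_pow_iff_left₀ (norm_nonneg _) (norm_nonneg _) two_ne_zero).1 ?_
    nlinarith [sq_nonneg (t * ‖Z (E x)‖)]
  · have := hDn (E x)
    rw [hDE] at this
    refine (pow_le_pow_iff_left₀ (by positivity) (norm_nonneg _) two_ne_zero).1 ?_
    nlinarith [sq_nonneg ‖E x‖]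
  · rw [hDx, add_sub_cancel_left, norm_smul, Complex.norm_real, Real.norm_of_nonneg ht.le, hAn]

theorem exists_step (hU : IsUnitaryRep U) (hπ : IsUnitaryRep π) {Ξ : K} {ψ : H}
    (hψ : Ξ ∈ closure (orbitInt U π ψ)) {S : H →L[ℂ] K} (hS : IsInt U π S) {t δ : ℝ}
    (ht : 0 < t) (hδ : 0 < δ) :
    ∃ (ψ' : H) (S' : H →L[ℂ] K), Ξ ∈ closure (orbitInt U π ψ') ∧ IsInt U π S' ∧
      ‖Ξ - S' ψ'‖ ≤ δ ∧ ‖S'‖ ≤ ‖S‖ + t⁻¹ ∧ ‖ψ' - ψ‖ ≤ t * (‖Ξ - S ψ‖ + δ) := by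
  obtain ⟨_, ⟨Y, hY, rfl⟩, hYd⟩ := Metric.mem_closure_iff.1 hψ δ hδ
  rw [dist_eq_norm] at hYd
  have hZ : IsInt U π (Y - S) := fun s x => by
    rw [sub_apply, sub_apply, hY, hS, map_sub]
  obtain ⟨D, E, hE, hED, hE1, hE2, hD⟩ := exists_damp hU hπ hZ ht
  have hcomp : ∀ W : H →L[ℂ] K, IsInt U π W → IsInt U π (W ∘L E) := fun W hW s x => by
    rw [ContinuousLinearMap.comp_apply, hE, hW, ContinuousLinearMap.comp_apply]
  refine ⟨D ψ, Y ∘L E, closure_mono ?_ hψ, hcomp Y hY, ?_, ?_, ?_⟩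
  · rintro _ ⟨W, hW, rfl⟩
    exact ⟨W ∘L E, hcomp W hW, by rw [ContinuousLinearMap.comp_apply, hED]⟩
  · rw [ContinuousLinearMap.comp_apply, hED]
    exact hYd.le
  · refine ContinuousLinearMap.opNorm_le_bound _ (by positivity) fun x => ?_
    have e1 : (Y ∘L E) x = S (E x) + (Y - S) (E x) := by simp
    have h1 : ‖S (E x)‖ ≤ ‖S‖ * ‖x‖ :=
      (S.le_opNorm _).trans (mul_le_mul_of_nonneg_left (hE1 x) (norm_nonneg _))
    have h2 : ‖(Y - S) (E x)‖ ≤ t⁻¹ * ‖x‖ := by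
      rw [le_inv_mul_iff₀ ht]
      exact hE2 x
    rw [e1, add_mul]
    exact (norm_add_le _ _).trans (add_le_add h1 h2)
  · rw [hD]
    refine mul_le_mul_of_nonneg_left ?_ ht.le
    have e1 : (Y - S) ψ = (Ξ - S ψ) - (Ξ - Y ψ) := by simp
    rw [e1]
    exact (norm_sub_le _ _).trans (by linarith)

theorem exists_coeff_of_closure (hU : IsUnitaryRep U) (hπ : IsUnitaryRep π) {Ξ : K} {ξ0 : H}
    (hξ0 : Ξ ∈ closure (orbitInt U π ξ0)) (Θ : K) {a : ℝ} (ha : 0 < a) (ha1 : a ≤ 1) :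
    ∃ ξ η : H, (∀ s, ⟪Θ, π s Ξ⟫_ℂ = ⟪η, U s ξ⟫_ℂ) ∧ ‖ξ‖ ≤ ‖Ξ‖ + 6 * a ∧
      ‖η‖ ≤ (1 + 2 * a) * ‖Θ‖ := by
  set c : ℝ := a / (‖ξ0‖ + 1) with hc
  have hc0 : 0 < c := by positivity
  have h0 : Ξ ∈ closure (orbitInt U π ((c : ℂ) • ξ0)) := by
    refine closure_mono ?_ hξ0
    rintro _ ⟨W, hW, rfl⟩
    refine ⟨(c : ℂ)⁻¹ • W, fun s x => by rw [smul_apply, smul_apply, hW, map_smul], ?_⟩
    rw [smul_apply, map_smul, smul_smul, inv_mul_cancel₀ (by exact_mod_cast hc0.ne'), one_smul]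
  have h0n : ‖(c : ℂ) • ξ0‖ ≤ a := by
    rw [norm_smul, Complex.norm_real, Real.norm_of_nonneg hc0.le, hc, div_mul_eq_mul_div,
      div_le_iff₀ (by positivity)]
    nlinarith [norm_nonneg ξ0]
  obtain ⟨ψ0, S0, hA1, hA2, hA3, hA4, hA5⟩ := exists_step hU hπ h0 (S := 0) (fun s x => by simp)
    one_pos (show 0 < a ^ 2 by positivity)
  let Inv : ℕ → H × (H →L[ℂ] K) → Prop := fun n p => Ξ ∈ closure (orbitInt U π p.1) ∧
    IsInt U π p.2 ∧ ‖Ξ - p.2 p.1‖ ≤ a ^ 2 * (1 / 4) ^ n ∧ ‖p.2‖ ≤ 1 + 2 * a - 2 * a * (1 / 2) ^ n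
  have hstep : ∀ n (p : {p // Inv n p}), ∃ q : {q // Inv (n + 1) q},
      ‖q.1.1 - p.1.1‖ ≤ 2 * a * (1 / 2) ^ n := by
    rintro n ⟨⟨ψ, S⟩, h1, h2, h3, h4⟩
    have hpos : (0 : ℝ) < a * (1 / 2) ^ n := by positivity
    obtain ⟨ψ', S', hB1, hB2, hB3, hB4, hB5⟩ := exists_step hU hπ h1 h2 (inv_pos.2 hpos)
      (show 0 < a ^ 2 * (1 / 4) ^ (n + 1) by positivity)
    refine ⟨⟨(ψ', S'), hB1, hB2, hB3, ?_⟩, hB5.trans ?_⟩
    · rw [inv_inv] at hB4
      change ‖S‖ ≤ _ at h4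
      change ‖S'‖ ≤ _
      rw [pow_succ]
      linarith
    · change ‖Ξ - S ψ‖ ≤ _ at h3
      rw [inv_mul_le_iff₀ hpos]
      have e1 : ((1 : ℝ) / 4) ^ n = (1 / 2) ^ n * (1 / 2) ^ n := by
        rw [← mul_pow]; norm_num
      change ‖Ξ - S ψ‖ + _ ≤ _
      rw [pow_succ (1 / 4 : ℝ), e1]
      rw [e1] at h3
      have : 0 ≤ a ^ 2 * ((1 / 2) ^ n * (1 / 2) ^ n) := by positivity
      nlinarith
  choose nxt hnxt using hstep
  let p0 : {p // Inv 0 p} := ⟨(ψ0, S0), hA1, hA2, by simpa using hA3, by simpa using hA4⟩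
  let p : ∀ n, {p // Inv n p} := fun n => Nat.rec p0 nxt n
  have hp : ∀ n, dist (p n).1.1 (p (n + 1)).1.1 ≤ 2 * a * (1 / 2) ^ n := fun n => by
    rw [dist_comm, dist_eq_norm]
    exact hnxt n (p n)
  obtain ⟨ξ, hξ⟩ := cauchySeq_tendsto_of_complete
    (cauchySeq_of_le_geometric (1 / 2) (2 * a) (by norm_num) hp)
  have hξ1 := dist_le_of_le_geometric_of_tendsto₀ (1 / 2) (2 * a) (by norm_num) hp hξ
  have hSn : ∀ n, ‖(p n).1.2‖ ≤ 1 + 2 * a := fun n => by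
    have := (p n).2.2.2.2
    have h2 : 0 ≤ 2 * a * (1 / 2) ^ n := by positivity
    linarith
  let F : ℕ → StrongDual ℂ H := fun n => (innerSL ℂ Θ) ∘L (p n).1.2
  have hF : ∀ n, ‖F n‖ ≤ (1 + 2 * a) * ‖Θ‖ := fun n => by
    refine (ContinuousLinearMap.opNorm_comp_le _ _).trans ?_
    rw [innerSL_apply_norm, mul_comm]
    exact mul_le_mul_of_nonneg_right (hSn n) (norm_nonneg _)
  let 𝒰 : Ultrafilter ℕ := Ultrafilter.of atTop
  have h𝒰 : (𝒰 : Filter ℕ) ≤ atTop := Ultrafilter.of_le _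
  obtain ⟨T, hT⟩ := exists_ultralim 𝒰 F _ hF
  refine ⟨ξ, (InnerProductSpace.toDual ℂ H).symm T, fun s => ?_, ?_, ?_⟩
  · rw [InnerProductSpace.toDual_symm_apply]
    refine tendsto_nhds_unique ?_ (hT (U s ξ))
    refine Tendsto.mono_left ?_ h𝒰
    have h1 : Tendsto (fun n => (p n).1.2 ξ) atTop (𝓝 Ξ) := by
      rw [tendsto_iff_norm_sub_tendsto_zero]
      have h2 : Tendsto (fun n => (1 + 2 * a) * ‖ξ - (p n).1.1‖ + a ^ 2 * (1 / 4) ^ n) atTop
          (𝓝 ((1 + 2 * a) * ‖ξ - ξ‖ + a ^ 2 * 0)) :=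
        (((tendsto_const_nhds.sub hξ).norm).const_mul _).add
          ((tendsto_pow_atTop_nhds_zero_of_lt_one (by norm_num) (by norm_num)).const_mul _)
      rw [sub_self, norm_zero, mul_zero, mul_zero, add_zero] at h2
      refine squeeze_zero (fun n => norm_nonneg _) (fun n => ?_) h2
      have e1 : (p n).1.2 ξ - Ξ = (p n).1.2 (ξ - (p n).1.1) - (Ξ - (p n).1.2 (p n).1.1) := by
        rw [map_sub]; abel
      rw [e1]
      refine (norm_sub_le _ _).trans (add_le_add ?_ (p n).2.2.2.1)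
      exact ((p n).1.2.le_opNorm _).trans (mul_le_mul_of_nonneg_right (hSn n) (norm_nonneg _))
    have h3 : Tendsto (fun n => ⟪Θ, π s ((p n).1.2 ξ)⟫_ℂ) atTop (𝓝 ⟪Θ, π s Ξ⟫_ℂ) :=
      tendsto_const_nhds.inner (((π s).continuous.tendsto _).comp h1)
    refine h3.congr fun n => ?_
    rw [← (p n).2.2.1]
    rfl
  · change dist ψ0 ξ ≤ _ at hξ1
    rw [dist_comm, dist_eq_norm] at hξ1
    have h1 := norm_sub_norm_le ξ ψ0
    have h2 := norm_sub_norm_le ψ0 ((c : ℂ) • ξ0)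
    simp only [zero_apply, sub_zero, one_mul] at hA5
    norm_num at hξ1
    nlinarith
  · rw [LinearIsometryEquiv.norm_map]
    refine ContinuousLinearMap.opNorm_le_bound _ (by positivity) fun x => ?_
    refine le_of_tendsto' (hT x).norm fun n => ?_
    exact ((F n).le_opNorm x).trans (mul_le_mul_of_nonneg_right (hF n) (norm_nonneg _))

end Pool.Agent.Work.MP_129c4a_an
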