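import Pool.Agent.Work.MP_129c4a_an.Norm

/-!
The Fourier algebra `A(G)` as a normed algebra.
-/

namespace Pool.Agent.Work.MP_129c4a_an

open MeasureTheory

universe u

variable {G : Type u} [Group G] [TopologicalSpace G] [IsTopologicalGroup G]
  [LocallyCompactSpace G] [T2Space G] [MeasurableSpace G] [BorelSpace G] (μ : Measure G)
  [μ.IsHaarMeasure] [μ.InnerRegularCompactLTTop]

/-- The coefficient functions form a subalgebra of the functions `G → ℂ` with the pointwise
operations. -/
def coeffSubalgebra : NonUnitalSubalgebra ℂ (G → ℂ) where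
  carrier := coeffSet μ
  add_mem' := coeffSet_add
  zero_mem' := coeffSet_zero
  mul_mem' := coeffSet_mul
  smul_mem' := coeffSet_smul

/-- The Fourier algebra `A(G)`. -/
def FourierAlgebra : Type u := coeffSubalgebra μ

noncomputable instance : NonUnitalRing (FourierAlgebra μ) :=
  (inferInstance : NonUnitalRing (coeffSubalgebra μ))

noncomputable instance : Module ℂ (FourierAlgebra μ) :=
  (inferInstance : Module ℂ (coeffSubalgebra μ))

instance : IsScalarTower ℂ (FourierAlgebra μ) (FourierAlgebra μ) :=
  (inferInstance : IsScalarTower ℂ (coeffSubalgebra μ) (coeffSubalgebra μ))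

instance : SMulCommClass ℂ (FourierAlgebra μ) (FourierAlgebra μ) :=
  (inferInstance : SMulCommClass ℂ (coeffSubalgebra μ) (coeffSubalgebra μ))

/-- The norm of `A(G)`. -/
noncomputable def fourierNorm : AddGroupNorm (FourierAlgebra μ) where
  toFun u := coeffNorm μ u.1
  map_zero' := coeffNorm_zero
  add_le' u v := coeffNorm_add_le u.2 v.2
  neg' u := coeffNorm_neg u.2
  eq_zero_of_map_eq_zero' u h := Subtype.ext (eq_zero_of_coeffNorm u.2 h)

noncomputable instance : NonUnitalNormedRing (FourierAlgebra μ) where
  __ := (fourierNorm μ).toNormedAddCommGroup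
  __ := (inferInstance : NonUnitalRing (FourierAlgebra μ))
  norm_mul_le u v := coeffNorm_mul_le u.2 v.2

noncomputable instance : NormedSpace ℂ (FourierAlgebra μ) where
  norm_smul_le c u := coeffNorm_smul_le c u.2

end Pool.Agent.Work.MP_129c4a_an
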