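import Pool.Agent.Work.MP_129c4a_an.Eymard

/-!
The coefficient functions form an algebra and the infimum is an algebra norm.
-/

namespace Pool.Agent.Work.MP_129c4a_an

open MeasureTheory
open scoped InnerProductSpace

universe u

variable {G : Type u} [Group G] [TopologicalSpace G] [IsTopologicalGroup G]
  [MeasurableSpace G] [BorelSpace G] {μ : Measure G} [μ.IsHaarMeasure] {u v : G → ℂ}

theorem coeff_smul (c : ℂ) (ξ η : Lp ℂ 2 μ) : coeff μ (c • ξ) η = c • coeff μ ξ η := by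
  funext s
  rw [Pi.smul_apply, coeff_eq_inner, coeff_eq_inner, map_smul, inner_smul_right, smul_eq_mul]

theorem coeff_zero : coeff μ 0 0 = 0 := by
  funext s
  simp [coeff_eq_inner]

theorem coeffSet_zero : (0 : G → ℂ) ∈ coeffSet μ := ⟨0, 0, coeff_zero.symm⟩

theorem coeffSet_smul (c : ℂ) {u : G → ℂ} (hu : u ∈ coeffSet μ) : c • u ∈ coeffSet μ := by
  obtain ⟨ξ, η, rfl⟩ := hu
  exact ⟨c • ξ, η, (coeff_smul c ξ η).symm⟩

omit [TopologicalSpace G] [IsTopologicalGroup G] [BorelSpace G] [μ.IsHaarMeasure] in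
theorem coeffNorm_le {ξ η : Lp ℂ 2 μ} (h : u = coeff μ ξ η) : coeffNorm μ u ≤ ‖ξ‖ * ‖η‖ := by
  refine csInf_le ⟨0, ?_⟩ ⟨ξ, η, h, rfl⟩
  rintro r ⟨ξ', η', -, rfl⟩
  positivity

omit [TopologicalSpace G] [IsTopologicalGroup G] [BorelSpace G] [μ.IsHaarMeasure] in
theorem le_coeffNorm (hu : u ∈ coeffSet μ) {r : ℝ}
    (h : ∀ ξ η : Lp ℂ 2 μ, u = coeff μ ξ η → r ≤ ‖ξ‖ * ‖η‖) : r ≤ coeffNorm μ u := by
  obtain ⟨ξ, η, h0⟩ := hu
  refine le_csInf ⟨_, ξ, η, h0, rfl⟩ ?_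
  rintro r ⟨ξ', η', h', rfl⟩
  exact h ξ' η' h'

omit [TopologicalSpace G] [IsTopologicalGroup G] [BorelSpace G] [μ.IsHaarMeasure] in
theorem coeffNorm_nonneg (hu : u ∈ coeffSet μ) : 0 ≤ coeffNorm μ u :=
  le_coeffNorm hu fun _ _ _ => by positivity

omit [TopologicalSpace G] [IsTopologicalGroup G] [BorelSpace G] [μ.IsHaarMeasure] in
theorem mul_coeffNorm (hu : u ∈ coeffSet μ) {r c : ℝ} (hc : 0 ≤ c)
    (h : ∀ ξ η : Lp ℂ 2 μ, u = coeff μ ξ η → r ≤ c * (‖ξ‖ * ‖η‖)) : r ≤ c * coeffNorm μ u := by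
  rcases hc.eq_or_lt with rfl | hc
  · obtain ⟨ξ, η, h0⟩ := hu
    simpa using h ξ η h0
  · rw [← inv_mul_le_iff₀ hc]
    exact le_coeffNorm hu fun ξ η h0 => (inv_mul_le_iff₀ hc).2 (h ξ η h0)

theorem coeffNorm_zero : coeffNorm μ 0 = 0 :=
  le_antisymm (by simpa using coeffNorm_le (coeff_zero (μ := μ)).symm)
    (coeffNorm_nonneg coeffSet_zero)

theorem coeffNorm_smul_le (c : ℂ) (hu : u ∈ coeffSet μ) :
    coeffNorm μ (c • u) ≤ ‖c‖ * coeffNorm μ u := by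
  refine mul_coeffNorm hu (norm_nonneg c) fun ξ η h => ?_
  rw [← mul_assoc, ← norm_smul]
  exact coeffNorm_le (by rw [coeff_smul, h])

theorem coeffNorm_neg (hu : u ∈ coeffSet μ) : coeffNorm μ (-u) = coeffNorm μ u := by
  have h1 := coeffNorm_smul_le (-1) hu
  have h2 := coeffNorm_smul_le (-1) (coeffSet_smul (-1) hu)
  simp only [neg_smul, one_smul, norm_neg, norm_one, one_mul, neg_neg] at h1 h2
  exact le_antisymm h1 h2

theorem eq_zero_of_coeffNorm (hu : u ∈ coeffSet μ) (h : coeffNorm μ u = 0) : u = 0 := by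
  funext s
  refine norm_le_zero_iff.1 (h ▸ le_coeffNorm hu fun ξ η h0 => ?_)
  rw [h0, coeff_eq_inner, mul_comm, ← (isUnitaryRep_lam μ).norm s ξ]
  exact norm_inner_le_norm _ _

variable [LocallyCompactSpace G] [T2Space G] [μ.InnerRegularCompactLTTop]

theorem coeffSet_add (hu : u ∈ coeffSet μ) (hv : v ∈ coeffSet μ) : u + v ∈ coeffSet μ := by
  obtain ⟨ξ, η, rfl⟩ := hu
  obtain ⟨ξ', η', rfl⟩ := hv
  obtain ⟨α, β, h, -⟩ := exists_coeff_add ξ η ξ' η' one_pos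
  exact ⟨α, β, h⟩

theorem coeffSet_mul (hu : u ∈ coeffSet μ) (hv : v ∈ coeffSet μ) : u * v ∈ coeffSet μ := by
  obtain ⟨ξ, η, rfl⟩ := hu
  obtain ⟨ξ', η', rfl⟩ := hv
  obtain ⟨α, β, h, -⟩ := exists_coeff_mul ξ η ξ' η' one_pos
  exact ⟨α, β, h⟩

theorem coeffNorm_add_le (hu : u ∈ coeffSet μ) (hv : v ∈ coeffSet μ) :
    coeffNorm μ (u + v) ≤ coeffNorm μ u + coeffNorm μ v := by
  rw [← sub_le_iff_le_add]
  refine le_coeffNorm hu fun ξ η h => ?_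
  rw [sub_le_comm]
  refine le_coeffNorm hv fun ξ' η' h' => ?_
  rw [sub_le_iff_le_add']
  refine le_of_forall_pos_le_add fun ε hε => ?_
  obtain ⟨α, β, h1, h2⟩ := exists_coeff_add ξ η ξ' η' hε
  exact (coeffNorm_le (by rw [h, h', h1])).trans h2

theorem coeffNorm_mul_le (hu : u ∈ coeffSet μ) (hv : v ∈ coeffSet μ) :
    coeffNorm μ (u * v) ≤ coeffNorm μ u * coeffNorm μ v := by
  refine mul_coeffNorm hv (coeffNorm_nonneg hu) fun ξ' η' h' => ?_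
  rw [mul_comm (coeffNorm μ u)]
  refine mul_coeffNorm hu (by positivity) fun ξ η h => ?_
  rw [mul_comm (‖ξ'‖ * ‖η'‖)]
  refine le_of_forall_pos_le_add fun ε hε => ?_
  obtain ⟨α, β, h1, h2⟩ := exists_coeff_mul ξ η ξ' η' hε
  exact (coeffNorm_le (by rw [h, h', h1])).trans h2

end Pool.Agent.Work.MP_129c4a_an
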