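import Pool.Agent.Work.MP_129c4a_an.Hilbert
import Mathlib.Analysis.InnerProductSpace.l2Space
import Mathlib.Analysis.InnerProductSpace.MeanErgodic
import Mathlib.Analysis.Complex.Order

/-!
A Perron-Frobenius argument on the Hilbert space of a discrete group: the projection of the unit
vector at the identity on the fixed space of a positive contraction is small.
-/

namespace Pool.Agent.Work.MP_129c4a_an

open Filter Topology
open scoped InnerProductSpace ComplexOrder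

universe u v

variable {G : Type u} [Group G] {H : Type v} [NormedAddCommGroup H] [InnerProductSpace ℂ H]
  [CompleteSpace H]

omit [Group G] [CompleteSpace H] in
theorem ext_coord (b : HilbertBasis G ℂ H) {x y : H} (h : ∀ t, ⟪b t, x⟫_ℂ = ⟪b t, y⟫_ℂ) :
    x = y := by
  apply b.repr.injective
  ext t
  rw [b.repr_apply_apply, b.repr_apply_apply, h]

theorem exists_right (b : HilbertBasis G ℂ H) (t : G) :
    ∃ R : H →L[ℂ] H, (∀ ζ, ‖R ζ‖ = ‖ζ‖) ∧ ∀ x ζ, ⟪b x, R ζ⟫_ℂ = ⟪b (x * t), ζ⟫_ℂ := by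
  have ho : Orthonormal ℂ (fun x => b (x * t)) := b.orthonormal.comp _ (mul_left_injective t)
  have hr : Set.range (fun x => b (x * t)) = Set.range b :=
    (mul_right_surjective t).range_comp b
  let b' : HilbertBasis G ℂ H := HilbertBasis.mk ho (by rw [hr, b.dense_span])
  refine ⟨(b'.repr.trans b.repr.symm).toContinuousLinearEquiv.toContinuousLinearMap,
    fun ζ => (b'.repr.trans b.repr.symm).norm_map ζ, fun x ζ => ?_⟩
  rw [← b.repr_apply_apply]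
  change b.repr (b.repr.symm (b'.repr ζ)) x = _
  rw [LinearIsometryEquiv.apply_symm_apply, b'.repr_apply_apply, HilbertBasis.coe_mk]

omit [Group G] [CompleteSpace H] in
theorem exists_abs (b : HilbertBasis G ℂ H) (ζ : H) :
    ∃ w : H, ‖w‖ = ‖ζ‖ ∧ ∀ x, ⟪b x, w⟫_ℂ = (‖⟪b x, ζ⟫_ℂ‖ : ℂ) := by
  have hm : Memℓp (fun x : G => (‖b.repr ζ x‖ : ℂ)) 2 := by
    apply Memℓp.of_norm
    simpa only [Complex.norm_real, norm_norm] using (lp.memℓp (b.repr ζ)).norm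
  let f : lp (fun _ : G => ℂ) 2 := ⟨fun x : G => (‖b.repr ζ x‖ : ℂ), hm⟩
  refine ⟨b.repr.symm f, ?_, fun x => ?_⟩
  · rw [LinearIsometryEquiv.norm_map, ← b.repr.norm_map ζ, lp.norm_eq_tsum_rpow (by norm_num),
      lp.norm_eq_tsum_rpow (by norm_num)]
    simp [f]
  · rw [← b.repr_apply_apply, LinearIsometryEquiv.apply_symm_apply, ← b.repr_apply_apply]

variable {U : G →* (H →L[ℂ] H)}

omit [CompleteSpace H] in
theorem coord_rep (hU : IsUnitaryRep U) (b : HilbertBasis G ℂ H) (hb : ∀ s x, U s (b x) = b (s * x))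
    (s x : G) (ζ : H) : ⟪b x, U s ζ⟫_ℂ = ⟪b (s⁻¹ * x), ζ⟫_ℂ := by
  rw [← hb, hU.inner_left, inv_inv]

omit [CompleteSpace H] in
theorem right_comm_span (hU : IsUnitaryRep U) (b : HilbertBasis G ℂ H)
    (hb : ∀ s x, U s (b x) = b (s * x)) {t : G} {R : H →L[ℂ] H}
    (hR : ∀ x ζ, ⟪b x, R ζ⟫_ℂ = ⟪b (x * t), ζ⟫_ℂ) {T : H →L[ℂ] H} (hT : T ∈ spanRep U) (ζ : H) :
    R (T ζ) = T (R ζ) := by
  induction hT using Submodule.span_induction with
  | mem x hx =>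
    obtain ⟨s, rfl⟩ := hx
    refine ext_coord b fun y => ?_
    rw [hR, coord_rep hU b hb, coord_rep hU b hb, hR, mul_assoc]
  | zero => simp
  | add x y _ _ hx hy => simp [hx, hy]
  | smul c x _ hx => simp [hx]

theorem norm_apply_basis (hU : IsUnitaryRep U) (b : HilbertBasis G ℂ H)
    (hb : ∀ s x, U s (b x) = b (s * x)) {T : H →L[ℂ] H} (hT : T ∈ spanRep U) (x : G) :
    ‖T (b x)‖ = ‖T (b 1)‖ := by
  classical
  obtain ⟨R, hR1, hR2⟩ := exists_right b x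
  have : R (b x) = b 1 := by
    refine ext_coord b fun y => ?_
    rw [hR2, orthonormal_iff_ite.1 b.orthonormal, orthonormal_iff_ite.1 b.orthonormal]
    simp
  rw [← this, ← right_comm_span hU b hb hR2 hT, hR1]

theorem fixed_small (hU : IsUnitaryRep U) (b : HilbertBasis G ℂ H)
    (hb : ∀ s x, U s (b x) = b (s * x)) {κ : Type u} (I : Finset κ) (σ : κ → G) (c : ℝ)
    (hc : 0 < c) (a : H →L[ℂ] H) (ha : a = (c : ℂ) • ∑ p ∈ I, U (σ p)) (ha1 : ∀ x, ‖a x‖ ≤ ‖x‖)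
    (F : Finset G) (hF : ∀ t ∈ F, ∃ p ∈ I, σ p = t⁻¹) (ξ : H) (hξ : a ξ = ξ)
    (hpos : ∀ x, 0 ≤ ⟪b x, ξ⟫_ℂ) (hproj : ∀ η, a η = η → ⟪b 1, η⟫_ℂ = ⟪ξ, η⟫_ℂ) :
    F.card * ‖ξ‖ ^ 2 ≤ 1 := by
  have hmem : a ∈ spanRep U := by
    rw [ha]
    exact Submodule.smul_mem _ _ (Submodule.sum_mem _ fun _ _ => rep_mem U _)
  have hco : ∀ ζ x, ⟪b x, a ζ⟫_ℂ = c * ∑ p ∈ I, ⟪b ((σ p)⁻¹ * x), ζ⟫_ℂ := by
    intro ζ x
    rw [ha]
    simp only [smul_apply, sum_apply, inner_smul_right, inner_sum,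
      coord_rep hU b hb]
  -- absolute values of fixed vectors are fixed
  have habs : ∀ ζ w : H, a ζ = ζ → ‖w‖ = ‖ζ‖ → (∀ x, ⟪b x, w⟫_ℂ = (‖⟪b x, ζ⟫_ℂ‖ : ℂ)) →
      a w = w := by
    intro ζ w hζ _ hw
    have h1 := (Complex.reCLM.hasSum (b.hasSum_inner_mul_inner (a w) w))
    have h2 := (Complex.reCLM.hasSum (b.hasSum_inner_mul_inner w w))
    have h3 : Complex.reCLM ⟪w, w⟫_ℂ ≤ Complex.reCLM ⟪a w, w⟫_ℂ := by
      refine hasSum_le (fun x => ?_) h2 h1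
      rw [← inner_conj_symm w (b x), ← inner_conj_symm (a w) (b x), hco, hw]
      simp only [hw]
      have h4 : ‖⟪b x, ζ⟫_ℂ‖ ≤ c * ∑ p ∈ I, ‖⟪b ((σ p)⁻¹ * x), ζ⟫_ℂ‖ := by
        conv_lhs => rw [← hζ, hco]
        rw [norm_mul, Complex.norm_real, Real.norm_of_nonneg hc.le]
        exact mul_le_mul_of_nonneg_left (norm_sum_le _ _) hc.le
      rw [← Complex.ofReal_sum, ← Complex.ofReal_mul, Complex.conj_ofReal, Complex.conj_ofReal,
        ← Complex.ofReal_mul, ← Complex.ofReal_mul, Complex.reCLM_apply, Complex.reCLM_apply,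
        Complex.ofReal_re, Complex.ofReal_re]
      exact mul_le_mul_of_nonneg_right h4 (norm_nonneg _)
    have h5 := norm_sub_sq (𝕜 := ℂ) (a w) w
    have h6 : Complex.reCLM ⟪w, w⟫_ℂ = ‖w‖ ^ 2 := inner_self_eq_norm_sq (𝕜 := ℂ) w
    have h7 : ‖a w‖ ^ 2 ≤ ‖w‖ ^ 2 := pow_le_pow_left₀ (norm_nonneg _) (ha1 w) 2
    have h8 : RCLike.re ⟪a w, w⟫_ℂ = Complex.reCLM ⟪a w, w⟫_ℂ := rfl
    have h9 : ‖a w - w‖ ^ 2 ≤ 0 := by linarith
    have h10 : ‖a w - w‖ = 0 := by nlinarith [norm_nonneg (a w - w)]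
    exact sub_eq_zero.1 (norm_eq_zero.1 h10)
  obtain ⟨v, hv⟩ : ∃ v : G → ℝ, ∀ x, ⟪b x, ξ⟫_ℂ = v x :=
    ⟨fun x => (⟪b x, ξ⟫_ℂ).re, fun x => by
      have := Complex.nonneg_iff.1 (hpos x)
      exact Complex.ext rfl (by simpa using this.2.symm)⟩
  have hv1 : v 1 = ‖ξ‖ ^ 2 := by
    have := hproj ξ hξ
    rw [hv, inner_self_eq_norm_sq_to_K] at this
    apply Complex.ofReal_injective
    rw [this]
    push_cast
    rfl
  have hvmax : ∀ x, v x ≤ v 1 := by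
    intro x
    obtain ⟨R, hR1, hR2⟩ := exists_right b x
    have h1 : a (R ξ) = R ξ := by rw [← right_comm_span hU b hb hR2 hmem, hξ]
    have h2 := hproj _ h1
    rw [hR2, one_mul, hv] at h2
    have h3 : ‖⟪ξ, R ξ⟫_ℂ‖ ≤ ‖ξ‖ * ‖R ξ‖ := norm_inner_le_norm _ _
    rw [← h2, hR1, Complex.norm_real] at h3
    rw [hv1, sq]
    exact (le_abs_self _).trans h3
  have hvt : ∀ t ∈ F, v 1 ≤ v t := by
    intro t ht
    obtain ⟨R, hR1, hR2⟩ := exists_right b t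
    have h1 : a (ξ - R ξ) = ξ - R ξ := by
      rw [map_sub, ← right_comm_span hU b hb hR2 hmem, hξ]
    obtain ⟨w, hw1, hw2⟩ := exists_abs b (ξ - R ξ)
    have h2 := habs _ w h1 hw1 hw2
    have h3 : a (ξ - R ξ + w) = ξ - R ξ + w := by rw [map_add, h1, h2]
    have h4 : ∀ x, ⟪b x, ξ - R ξ + w⟫_ℂ =
        ((v x - v (x * t) + |v x - v (x * t)| : ℝ) : ℂ) := by
      intro x
      rw [inner_add_right, hw2, inner_sub_right, hR2, hv, hv, ← Complex.ofReal_sub,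
        Complex.norm_real, Real.norm_eq_abs, ← Complex.ofReal_add]
    have h5 := hco (ξ - R ξ + w) t⁻¹
    rw [h3] at h5
    simp only [h4] at h5
    rw [← Complex.ofReal_sum, ← Complex.ofReal_mul] at h5
    have h6 := Complex.ofReal_injective h5
    rw [inv_mul_cancel, abs_of_nonpos (sub_nonpos.2 (hvmax _)), add_neg_cancel] at h6
    have h7 := (mul_eq_zero.1 h6.symm).resolve_left hc.ne'
    rw [Finset.sum_eq_zero_iff_of_nonneg
      (fun p _ => by linarith [neg_abs_le (v ((σ p)⁻¹ * t⁻¹) - v ((σ p)⁻¹ * t⁻¹ * t))])] at h7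
    obtain ⟨p, hp, hpt⟩ := hF t ht
    have h8 := h7 p hp
    rw [hpt, inv_inv, mul_inv_cancel, one_mul] at h8
    linarith [le_abs_self (v 1 - v t)]
  have hbessel := b.orthonormal.sum_inner_products_le (s := F) ξ
  have h1 : F.card * (‖ξ‖ ^ 2) ^ 2 ≤ ‖ξ‖ ^ 2 := by
    refine le_trans ?_ hbessel
    rw [← nsmul_eq_mul]
    refine Finset.card_nsmul_le_sum F _ _ fun t ht => ?_
    rw [hv, Complex.norm_real, Real.norm_eq_abs, sq_abs, ← hv1]
    exact pow_le_pow_left₀ (by rw [hv1]; positivity) (hvt t ht) 2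
  rcases eq_or_lt_of_le (sq_nonneg ‖ξ‖) with h0 | h0
  · rw [← h0]
    simp
  · nlinarith

end Pool.Agent.Work.MP_129c4a_an
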