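import Pool.Agent.Work.MP_129c4a_an.Abstract
import Pool.Agent.Work.MP_129c4a_an.Hilbert
import Mathlib.MeasureTheory.Function.LpSpace.DomAct.Basic
import Mathlib.MeasureTheory.Group.Action

/-!
The left regular representation and the reduction to a gliding hump sequence.
-/

namespace Pool.Agent.Work.MP_129c4a_an

open MeasureTheory Filter Topology
open scoped InnerProductSpace

universe u v

variable {G : Type u} [Group G] [MeasurableSpace G] [MeasurableMul G] (μ : Measure G)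
  [μ.IsMulLeftInvariant]

/-- `ι` identifies the normed algebra `A` with the Fourier algebra `A(G)`: it is a bijection of
`A` onto the set of coefficient functions, the algebra operations are the pointwise ones, and the
norm is the infimum of `‖ξ‖ ‖η‖` over all representations. -/
structure IsFourierAlgebra (A : Type v) [NonUnitalNormedRing A] [NormedSpace ℂ A]
    (ι : A → G → ℂ) : Prop where
  injective : Function.Injective ι
  range_eq : Set.range ι = {u | ∃ ξ η : Lp ℂ 2 μ, u = coeff μ ξ η}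
  map_add : ∀ a b, ι (a + b) = ι a + ι b
  map_smul : ∀ (c : ℂ) (a : A), ι (c • a) = c • ι a
  map_mul : ∀ a b, ι (a * b) = ι a * ι b
  norm_eq : ∀ a, ‖a‖ = sInf {r : ℝ | ∃ ξ η : Lp ℂ 2 μ, ι a = coeff μ ξ η ∧ r = ‖ξ‖ * ‖η‖}

/-- the operator `λ(s)` -/
noncomputable def lamOp (s : G) : Lp ℂ 2 μ →L[ℂ] Lp ℂ 2 μ :=
  LinearMap.mkContinuous
    { toFun := fun ξ => DomMulAct.mk s⁻¹ • ξ
      map_add' := fun ξ η => DomMulAct.smul_Lp_add _ ξ η
      map_smul' := fun c ξ => smul_comm _ c ξ }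
    1 (fun ξ => by simp)

theorem lamOp_apply (s : G) (ξ : Lp ℂ 2 μ) : lamOp μ s ξ = DomMulAct.mk s⁻¹ • ξ := rfl

theorem lamOp_ae (s : G) (ξ : Lp ℂ 2 μ) : lamOp μ s ξ =ᵐ[μ] fun t => ξ (s⁻¹ * t) :=
  DomMulAct.smul_Lp_ae_eq (DomMulAct.mk s⁻¹) ξ

/-- the left regular representation -/
noncomputable def lam : G →* (Lp ℂ 2 μ →L[ℂ] Lp ℂ 2 μ) where
  toFun := lamOp μ
  map_one' := by
    refine ContinuousLinearMap.ext fun ξ => ?_
    rw [lamOp_apply, inv_one, DomMulAct.mk_one, one_smul]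
    rfl
  map_mul' a b := by
    refine ContinuousLinearMap.ext fun ξ => ?_
    change _ = lamOp μ a (lamOp μ b ξ)
    rw [lamOp_apply, lamOp_apply, lamOp_apply, mul_inv_rev, DomMulAct.mk_mul, mul_smul]

theorem lam_apply (s : G) (ξ : Lp ℂ 2 μ) : lam μ s ξ = DomMulAct.mk s⁻¹ • ξ := rfl

theorem isUnitaryRep_lam : IsUnitaryRep (lam μ) := by
  intro g x y
  have hn : ∀ z, ‖lam μ g z‖ = ‖z‖ := fun z => by rw [lam_apply, DomMulAct.norm_smul_Lp]
  exact (LinearIsometry.mk (lam μ g).toLinearMap hn).inner_map_map x y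

theorem coeff_eq_inner (ξ η : Lp ℂ 2 μ) (s : G) : coeff μ ξ η s = ⟪η, lam μ s ξ⟫_ℂ := by
  rw [L2.inner_def, coeff]
  refine integral_congr_ae ?_
  filter_upwards [lamOp_ae μ s ξ] with t ht
  change _ = ⟪η t, lamOp μ s ξ t⟫_ℂ
  rw [ht]
  simp

variable {μ}
variable {A : Type v} [NonUnitalNormedRing A] [NormedSpace ℂ A] {ι : A → G → ℂ}

omit [MeasurableMul G] [μ.IsMulLeftInvariant] in
theorem IsFourierAlgebra.comm (h : IsFourierAlgebra μ A ι) (a b : A) : a * b = b * a :=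
  h.injective (by rw [h.map_mul, h.map_mul, mul_comm])

omit [MeasurableMul G] [μ.IsMulLeftInvariant] in
theorem IsFourierAlgebra.exists_rep (h : IsFourierAlgebra μ A ι) (a : A) :
    ∃ ξ η : Lp ℂ 2 μ, ι a = coeff μ ξ η := by
  have : ι a ∈ Set.range ι := ⟨a, rfl⟩
  rw [h.range_eq] at this
  exact this

omit [MeasurableMul G] [μ.IsMulLeftInvariant] in
theorem IsFourierAlgebra.norm_le (h : IsFourierAlgebra μ A ι) {a : A} {ξ η : Lp ℂ 2 μ}
    (ha : ι a = coeff μ ξ η) : ‖a‖ ≤ ‖ξ‖ * ‖η‖ := by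
  rw [h.norm_eq]
  refine csInf_le ⟨0, ?_⟩ ⟨ξ, η, ha, rfl⟩
  rintro r ⟨ξ', η', -, rfl⟩
  positivity

theorem IsFourierAlgebra.exists_functional (h : IsFourierAlgebra μ A ι)
    {Q : Lp ℂ 2 μ →L[ℂ] Lp ℂ 2 μ} (hQ : Q ∈ spanRep (lam μ)) :
    ∃ F : A →ₗ[ℂ] ℂ, ∀ a ξ η, ι a = coeff μ ξ η → F a = ⟪η, Q ξ⟫_ℂ := by
  induction hQ using Submodule.span_induction with
  | mem x hx =>
    obtain ⟨s, rfl⟩ := hx
    refine ⟨{ toFun := fun a => ι a s
              map_add' := fun a b => by rw [h.map_add]; rfl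
              map_smul' := fun c a => by rw [h.map_smul]; rfl }, fun a ξ η ha => ?_⟩
    change ι a s = _
    rw [ha, coeff_eq_inner]
  | zero => exact ⟨0, fun a ξ η _ => by simp⟩
  | add x y _ _ hx hy =>
    obtain ⟨F, hF⟩ := hx
    obtain ⟨F', hF'⟩ := hy
    refine ⟨F + F', fun a ξ η ha => ?_⟩
    rw [LinearMap.add_apply, hF a ξ η ha, hF' a ξ η ha, add_apply,
      inner_add_right]
  | smul c x _ hx =>
    obtain ⟨F, hF⟩ := hx
    refine ⟨c • F, fun a ξ η ha => ?_⟩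
    rw [LinearMap.smul_apply, hF a ξ η ha, smul_apply, inner_smul_right]
    rfl

theorem IsFourierAlgebra.exists_clm (h : IsFourierAlgebra μ A ι)
    {Q : Lp ℂ 2 μ →L[ℂ] Lp ℂ 2 μ} (hQ : Q ∈ spanRep (lam μ)) (hQ1 : ∀ y, ‖Q y‖ ≤ ‖y‖) :
    ∃ F : StrongDual ℂ A, ‖F‖ ≤ 1 ∧ ∀ a ξ η, ι a = coeff μ ξ η → F a = ⟪η, Q ξ⟫_ℂ := by
  obtain ⟨F, hF⟩ := h.exists_functional hQ
  have hb : ∀ a, ‖F a‖ ≤ 1 * ‖a‖ := by
    intro a
    rw [one_mul, h.norm_eq]
    obtain ⟨ξ, η, ha⟩ := h.exists_rep a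
    refine le_csInf ⟨_, ξ, η, ha, rfl⟩ ?_
    rintro r ⟨ξ', η', ha', rfl⟩
    rw [hF a ξ' η' ha', mul_comm]
    exact (norm_inner_le_norm _ _).trans (mul_le_mul_of_nonneg_left (hQ1 _) (norm_nonneg _))
  exact ⟨F.mkContinuous 1 hb, LinearMap.mkContinuous_norm_le _ zero_le_one _, hF⟩

theorem IsFourierAlgebra.exists_rad_of_data [IsScalarTower ℂ A A] [SMulCommClass ℂ A A]
    (h : IsFourierAlgebra μ A ι) (x : ℕ → Datum G (Lp ℂ 2 μ))
    (hx : ∀ n, (x n).Good (lam μ)) (hxx : ∀ m n, m < n → (x m).Before (lam μ) (x n)) :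
    ∃ Ψ : ArensBidual A, Ψ ≠ 0 ∧ Ψ ∈ rad (ArensBidual A) := by
  have hU := isUnitaryRep_lam μ
  obtain ⟨Q, hQ1, hQ2, hQ3⟩ := exists_glued hU x hx hxx
  have hd : ∀ n, ∃ a : A, ι a = coeff μ (x n).ξ (lam μ (x n).g (x n).ξ) := by
    intro n
    have : coeff μ (x n).ξ (lam μ (x n).g (x n).ξ) ∈ Set.range ι := by
      rw [h.range_eq]
      exact ⟨_, _, rfl⟩
    exact this
  choose d hd using hd
  choose F hF1 hF2 using fun N => h.exists_clm (hQ1 N) (hQ2 N)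
  let 𝒰 : Ultrafilter ℕ := Ultrafilter.of atTop
  have h𝒰 : (𝒰 : Filter ℕ) ≤ atTop := Ultrafilter.of_le _
  obtain ⟨T, hT⟩ := exists_ultralim 𝒰 F 1 hF1
  refine exists_rad_of_seq h.comm d 1 (fun n => ?_) (fun m n hmn => ?_) T (fun m => ?_)
  · have := h.norm_le (hd n)
    rwa [hU.norm, (hx n).1, one_mul] at this
  · apply h.injective
    have h0 : ι 0 = 0 := by
      have := h.map_smul 0 0
      simpa using this
    rw [h.map_mul, hd, hd, h0]
    funext s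
    rw [Pi.mul_apply, coeff_eq_inner, coeff_eq_inner]
    exact (hxx m n hmn).2.2.2 s
  · have h2 : Tendsto (fun N => (F N (d m)).re) (𝒰 : Filter ℕ) (𝓝 (T (d m)).re) :=
      (Complex.continuous_re.tendsto _).comp (hT (d m))
    refine ge_of_tendsto h2 (h𝒰 ?_)
    filter_upwards [eventually_gt_atTop m] with N hN
    rw [hF2 N _ _ _ (hd m)]
    set η := lam μ (x m).g (x m).ξ
    have hη : ‖η‖ = 1 := by rw [hU.norm, (hx m).1]
    have e1 : Q N (x m).ξ = η + (Q N (x m).ξ - η) := by abel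
    rw [e1, inner_add_right, Complex.add_re, inner_self_eq_norm_sq_to_K, hη]
    have e2 : ‖⟪η, Q N (x m).ξ - η⟫_ℂ‖ ≤ 1 / 2 := by
      refine (norm_inner_le_norm _ _).trans ?_
      rw [hη, one_mul]
      exact hQ3 m N hN
    have e3 := (abs_le.1 ((Complex.abs_re_le_norm _).trans e2)).1
    simp only [RCLike.ofReal_one, one_pow, Complex.one_re]
    linarith

end Pool.Agent.Work.MP_129c4a_an
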